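import Pool.Agent.Y788.SLS.Mod

set_option autoImplicit false

/-!
# Definitions for the statement on the split subgroups of `SL_n(F)`
-/

namespace Pool.Agent.Y788.SLS

open Matrix Pool.Agent.H302R2 Pool.Agent.H541R3.ART Pool.Agent.Y786.FS Pool.Agent.Y786.FR
  Pool.Agent.Y788.SL Filter Topology

/-- Some positive multiple `k` of the class function of `Γ` induced from `χ` along `ι : H → Γ` is a
sum of characters induced from linear characters `l i` of SOLVABLE subgroups `U i` of `Γ`; for every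
family `A` of L-functions as in `TwistData` the `k`-th power of `M χ` (the L-function attached to
`χ`) is the product of the `Lin (U i) (l i)`, and `M χ` has no pole at `s₀`. -/
def Reduces {H Γ : Type} [Group H] [Finite H] [Group Γ] [Finite Γ] (ι : H →* Γ) (χ : H → ℂ) :
    Prop :=
  ∃ (k m : ℕ) (U : Fin m → Subgroup Γ) (l : ∀ i, U i →* ℂˣ), 0 < k ∧
    (∀ i, Group.IsSolvable (U i)) ∧
    (∀ σ, (k : ℂ) * ind ι χ σ = ∑ i, ind (U i).subtype (fun h => ((l i h : ℂˣ) : ℂ)) σ) ∧
    ∀ (s₀ : ℂ) (A : TwistData Γ s₀) (M : (H → ℂ) → ℂ → ℂ), InducedT ι A M →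
      (fun s => M χ s ^ k) =ᶠ[𝓝[≠] s₀] (fun s => ∏ i, A.Lin (U i) (l i) s) ∧
        0 ≤ meromorphicOrderAt (M χ) s₀

/-- Let `P` be a property of subgroups of `S` and let `o H` be integers. For the subgroups `H` of
order at most `N` with `P`: `0 ≤ o H`, and `0 < o H` if `0 < o ⊥`; if `|H| < |H'|` (with `H` contained
in `H'` or not) then `o H' ≤ o H`, and the ratio of `o H - o H'` and `1 / |H| - 1 / |H'|` is the same
for all such pairs up to the factor `1 + ε`. -/
def Regular {S : Type} [Group S] (P : Subgroup S → Prop) (o : Subgroup S → ℤ) (N : ℕ) (ε : ℝ) :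
    Prop :=
  (∀ H, P H → Nat.card H ≤ N → 0 ≤ o H ∧ (0 < o ⊥ → 0 < o H)) ∧
    ∀ H H', P H → P H' → Nat.card H < Nat.card H' → Nat.card H' ≤ N →
      o H' ≤ o H ∧
      ∀ U U', P U → P U' → Nat.card U < Nat.card U' → Nat.card U' ≤ N →
        ((o H : ℝ) - o H') * (1 / (Nat.card U : ℝ) - 1 / (Nat.card U' : ℝ)) ≤
          (1 + ε) * (((o U : ℝ) - o U') * (1 / (Nat.card H : ℝ) - 1 / (Nat.card H' : ℝ)))

/-- A subgroup of `SL_n(F)` is split if all eigenvalues of its elements lie in `F` (`F` has `q`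
elements and characteristic two: the order of every element divides `2 ^ a (q - 1)`). -/
def Split {F : Type} [Field F] {n : ℕ} (H : Subgroup (SpecialLinearGroup (Fin n) F)) : Prop :=
  ∀ g ∈ H, ∃ a : ℕ, g ^ (2 ^ a * (Nat.card F - 1)) = 1

/-- The property `Reduces` for all irreducible characters of the subgroup `H` of `S` (`j` embeds `S`
in `Γ`); moreover `M 1` is `Lin (j H) 1` near `s₀`. -/
def ReducesAll {S Γ : Type} [Group S] [Finite S] [Group Γ] [Finite Γ] (j : S →* Γ)
    (H : Subgroup S) : Prop :=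
  (∀ χ ∈ Irr H, Reduces (j.comp H.subtype) χ) ∧
    ∀ (s₀ : ℂ) (A : TwistData Γ s₀) (M : (H → ℂ) → ℂ → ℂ), InducedT (j.comp H.subtype) A M →
      A.Lin (H.map j) 1 =ᶠ[𝓝[≠] s₀] M (fun _ => 1)

/-- There are `n ≥ 1` and a finite field `F` of characteristic two with at least `B n` elements such
that every group of order at most `N` is isomorphic to a split subgroup without scalars of
`SL_n(F)`. -/
def HasEmb (N : ℕ) (B : ℝ) : Prop :=
  ∃ (n : ℕ) (F : Type) (_ : Field F) (_ : Finite F) (_ : CharP F 2), 0 < n ∧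
    B * n ≤ Nat.card F ∧
    ∀ (G : Type) [Group G] [Finite G], Nat.card G ≤ N →
      ∃ ι : G →* SpecialLinearGroup (Fin n) F, Function.Injective ι ∧ SplitSub ι.range

/-- For every `s₀` and `A` the orders `o H` at `s₀` of the `Lin (j H) 1` have the property `Regular`
for the split subgroups without scalars, if `F` is large enough. -/
def RegularAll {F : Type} [Field F] {n : ℕ} {Γ : Type} [Group Γ]
    (j : SpecialLinearGroup (Fin n) F →* Γ) : Prop :=
  ∀ (s₀ : ℂ) (A : TwistData Γ s₀), ∃ o : Subgroup (SpecialLinearGroup (Fin n) F) → ℤ,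
    (∀ H, meromorphicOrderAt (A.Lin (H.map j) 1) s₀ = o H) ∧
    ∀ (N : ℕ) (ε : ℝ), 0 < ε → ε ≤ 1 → 84 * n * ((N : ℝ) + 1) ^ 2 ≤ ε * Nat.card F →
      Regular SplitSub o N ε

end Pool.Agent.Y788.SLS
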