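import Pool.Agent.Y788.SLS.Stm
import Pool.Agent.Y891.SL.JobB

set_option autoImplicit false

/-! Project SL (helper788), job B. -/

namespace Pool.Agent.Y788.SLS.B

open Matrix Pool.Agent.H302R2 Pool.Agent.H302R3 Pool.Agent.H541R3.ART Pool.Agent.Y788.SL
open Pool.Agent.Y788.SLS (SA SB)

theorem norm_char {E : Type} [Group E] [Finite E] (μ : E →* ℂˣ) (c : E) :
    ‖((μ c : ℂˣ) : ℂ)‖ = 1 := by
  have h1 : ((μ c : ℂˣ) : ℂ) ^ (Nat.card E) = 1 := by
    rw [← Units.val_pow_eq_pow_val, ← map_pow, pow_card_eq_one', map_one, Units.val_one]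
  exact Complex.norm_eq_one_of_pow_eq_one h1 Nat.card_pos.ne'

theorem base (hA : SA) (F : Type) [Field F] [Finite F] [CharP F 2]
    (θ : SpecialLinearGroup (Fin 2) F → ℂ) (hθ : IsSolHeilbronn θ) (c : Fˣ) (hc : c ≠ 1) :
    ‖θ (tc c) - θ (ux 1)‖ ≤ 5 * ((θ 1).re - (θ (ux 1)).re) / Nat.card F := by
  classical
  obtain ⟨N, f, I, _, μ, b, hN, hb, h1, h2, h3, h4, h5⟩ := hA F θ hθ
  have hq : (0 : ℝ) < Nat.card F := by exact_mod_cast Nat.card_pos
  have e1 : θ (ux 1) = (f : ℂ) := h1 1 one_ne_zero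
  have e2 : (θ 1).re - (θ (ux 1)).re = Nat.card F * N := by
    rw [h2, e1, Complex.ofReal_re, Complex.ofReal_re]
    ring
  have e3 : 5 * ((θ 1).re - (θ (ux 1)).re) / Nat.card F = 5 * N := by
    rw [e2]
    field_simp
  rw [e3, h3 c hc, e1]
  have e4 : (f : ℂ) = ∑ i, (b i : ℂ) - N := by
    have : f = ∑ i, b i - N := by rw [h4]; ring
    rw [this]
    push_cast
    ring
  have e5 : ∑ i, (b i : ℂ) * ((μ i c : ℂˣ) : ℂ) - (f : ℂ) =
      ∑ i, (b i : ℂ) * (((μ i c : ℂˣ) : ℂ) - 1) + N := by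
    rw [e4]
    simp_rw [mul_sub, mul_one]
    rw [Finset.sum_sub_distrib]
    ring
  rw [e5]
  have e6 : ‖∑ i, (b i : ℂ) * (((μ i c : ℂˣ) : ℂ) - 1)‖ ≤
      2 * ∑ i, (if μ i = 1 then 0 else b i) := by
    rw [Finset.mul_sum]
    refine (norm_sum_le _ _).trans (Finset.sum_le_sum fun i _ => ?_)
    by_cases hi : μ i = 1
    · rw [if_pos hi, hi]
      simp
    · rw [if_neg hi, norm_mul, Complex.norm_real, Real.norm_of_nonneg (hb i)]
      have h6 : ‖((μ i c : ℂˣ) : ℂ) - 1‖ ≤ 2 := by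
        refine (norm_sub_le _ _).trans ?_
        rw [norm_char, norm_one]
        norm_num
      have := mul_le_mul_of_nonneg_left h6 (hb i)
      linarith
  have h5' : ∑ i, (if μ i = 1 then 0 else b i) ≤ 2 * N := by
    convert h5
  calc ‖∑ i, (b i : ℂ) * (((μ i c : ℂˣ) : ℂ) - 1) + N‖
      ≤ ‖∑ i, (b i : ℂ) * (((μ i c : ℂˣ) : ℂ) - 1)‖ + ‖(N : ℂ)‖ := norm_add_le _ _
    _ ≤ 2 * (2 * N) + N := by
        rw [Complex.norm_real, Real.norm_of_nonneg hN]
        linarith
    _ = 5 * N := by ring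

section twist

variable {S T C : Type} [Group S] [Finite S] [Group T] [Finite T] [CommGroup C] [Finite C]
  [Fintype C]

/-- the twisted component -/
noncomputable def tw (θ : S → ℂ) (z : C →* S) (L : T →* S) (ψ : AddChar (Additive C) ℂ) (h : T) :
    ℂ := (Nat.card C : ℂ)⁻¹ * ∑ x : C, ψ (Additive.ofMul x⁻¹) * θ (z x * L h)

theorem tw_heil {θ : S → ℂ} (hθ : IsSolHeilbronn θ) (z : C →* S) (L : T →* S)
    (hcomm : ∀ x h, Commute (z x) (L h)) (ψ : AddChar (Additive C) ℂ) :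
    IsSolHeilbronn (tw θ z L ψ) where
  conj g h := by
    unfold tw
    congr 1
    refine Finset.sum_congr rfl fun x _ => ?_
    congr 1
    rw [← hθ.conj (z x * L g) (L h), map_mul, map_mul, map_inv]
    congr 1
    have := (hcomm x h).eq
    rw [← mul_assoc, ← mul_assoc, ← mul_assoc, this, mul_assoc (L h)]
  mult H hH χ := by
    classical
    have : Fintype H := Fintype.ofFinite _
    let ω : C →* ℂˣ := ψ.toMonoidHom.toHomUnits
    have hω : ∀ e : C, ((ω e : ℂˣ) : ℂ) = ψ (Additive.ofMul e) := fun e => rfl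
    let φ : C × H →* S := MonoidHom.noncommCoprod z (L.comp H.subtype)
      (fun x h => hcomm x h)
    obtain ⟨n, hn⟩ := hθ.mult_hom (E := C × H) inferInstance φ ((ω.comp (MonoidHom.fst C H)) * (χ.comp (MonoidHom.snd C H)))
    refine ⟨n, ?_⟩
    rw [finsum_eq_sum_of_fintype]
    have hC : (Nat.card C : ℂ) ≠ 0 := by exact_mod_cast Nat.card_pos.ne'
    apply mul_left_cancel₀ hC
    have e1 : (Nat.card C : ℂ) * ((n : ℂ) * (Nat.card H : ℂ)) = (n : ℂ) * (Nat.card (C × H) : ℂ) := by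
      rw [Nat.card_prod]
      push_cast
      ring
    rw [e1, ← hn, Fintype.sum_prod_type, Finset.sum_comm, Finset.mul_sum]
    refine Finset.sum_congr rfl fun h _ => ?_
    unfold tw
    rw [← mul_assoc, mul_inv_cancel_left₀ hC, Finset.sum_mul]
    refine Finset.sum_congr rfl fun x _ => ?_
    have e2 : φ (x, h) = z x * L h := rfl
    rw [e2]
    simp only [MonoidHom.mul_apply, MonoidHom.comp_apply, MonoidHom.coe_fst, MonoidHom.coe_snd,
      mul_inv, Units.val_mul]
    have e3 : (((ω x)⁻¹ : ℂˣ) : ℂ) = ψ (Additive.ofMul x⁻¹) := by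
      rw [← map_inv, hω]
    rw [e3]
    ring

theorem tw_sum (θ : S → ℂ) (z : C →* S) (L : T →* S) (x : C) (h : T) :
    ∑ ψ : AddChar (Additive C) ℂ, ψ (Additive.ofMul x) * tw θ z L ψ h = θ (z x * L h) := by
  classical
  have hC : (Nat.card C : ℂ) ≠ 0 := by exact_mod_cast Nat.card_pos.ne'
  have : Fintype (Additive C) := Fintype.ofFinite _
  apply mul_left_cancel₀ hC
  rw [Finset.mul_sum]
  have h1 : ∀ ψ : AddChar (Additive C) ℂ, (Nat.card C : ℂ) *
      (ψ (Additive.ofMul x) * tw θ z L ψ h) =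
      ∑ y : C, θ (z y * L h) * ψ (Additive.ofMul (y⁻¹ * x)) := by
    intro ψ
    unfold tw
    rw [mul_left_comm, ← mul_assoc (Nat.card C : ℂ), mul_inv_cancel₀ hC, one_mul, Finset.mul_sum]
    refine Finset.sum_congr rfl fun y _ => ?_
    rw [ofMul_mul, AddChar.map_add_eq_mul]
    ring
  rw [Finset.sum_congr rfl (fun ψ _ => h1 ψ), Finset.sum_comm]
  have h2 : ∀ y : C, ∑ ψ : AddChar (Additive C) ℂ, θ (z y * L h) * ψ (Additive.ofMul (y⁻¹ * x))
      = if y = x then (Nat.card C : ℂ) * θ (z x * L h) else 0 := by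
    intro y
    rw [← Finset.mul_sum]
    rw [AddChar.sum_apply_eq_ite]
    by_cases hx : y = x
    · subst hx
      have hc : Fintype.card (Additive C) = Fintype.card C := Fintype.card_congr Additive.toMul
      simp [mul_comm, hc]
    · have : Additive.ofMul (y⁻¹ * x) ≠ 0 := by
        intro h
        apply hx
        have : y⁻¹ * x = 1 := h
        exact (inv_mul_eq_one.mp this)
      rw [if_neg this, if_neg hx, mul_zero]
  rw [Finset.sum_congr rfl (fun x _ => h2 x)]
  simp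

end twist

theorem t_B (hA : SA) : SB := by
  classical
  intro F _ _ _ S _ _ θ hθ L g hg c hc
  let C := Subgroup.zpowers g
  let _ : CommGroup C := { (inferInstance : Group C) with mul_comm := zpowers_comm g }
  have : Fintype C := Fintype.ofFinite _
  have hcomm : ∀ (x : C) h, Commute (C.subtype x) (L h) := by
    rintro ⟨x, k, rfl⟩ h
    exact (show Commute g (L h) from hg h).zpow_left k
  let gC : C := ⟨g, Subgroup.mem_zpowers g⟩
  have hq : (0 : ℝ) < Nat.card F := by exact_mod_cast Nat.card_pos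
  have e1 : ∀ h, θ (g * L h) = ∑ ψ : AddChar (Additive C) ℂ, ψ (Additive.ofMul gC) *
      tw θ C.subtype L ψ h := fun h => (tw_sum θ C.subtype L gC h).symm
  have e2 : ∀ h, θ (L h) = ∑ ψ : AddChar (Additive C) ℂ, tw θ C.subtype L ψ h := by
    intro h
    have h1 := tw_sum θ C.subtype L (1 : C) h
    have h0 : C.subtype (1 : C) = 1 := rfl
    rw [h0, one_mul] at h1
    rw [← h1]
    refine Finset.sum_congr rfl fun ψ _ => ?_
    rw [ofMul_one, AddChar.map_zero_eq_one, one_mul]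
  rw [e1, e1, ← Finset.sum_sub_distrib]
  have e3 : ∀ ψ : AddChar (Additive C) ℂ, ‖ψ (Additive.ofMul gC) * tw θ C.subtype L ψ (tc c) -
      ψ (Additive.ofMul gC) * tw θ C.subtype L ψ (ux 1)‖ ≤
      5 * ((tw θ C.subtype L ψ 1).re - (tw θ C.subtype L ψ (ux 1)).re) / Nat.card F := by
    intro ψ
    have h1 : ‖ψ (Additive.ofMul gC)‖ = 1 := norm_char ψ.toMonoidHom.toHomUnits gC
    rw [← mul_sub, norm_mul, h1, one_mul]
    exact base hA F _ (tw_heil hθ C.subtype L hcomm ψ) c hc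
  refine (norm_sum_le _ _).trans ((Finset.sum_le_sum fun ψ _ => e3 ψ).trans (le_of_eq ?_))
  rw [← Finset.sum_div, ← Finset.mul_sum, Finset.sum_sub_distrib]
  have e4 : ∀ h, ∑ ψ : AddChar (Additive C) ℂ, (tw θ C.subtype L ψ h).re = (θ (L h)).re := by
    intro h
    rw [e2 h, Complex.re_sum]
  rw [e4, e4, map_one]

end Pool.Agent.Y788.SLS.B
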