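import Pool.Agent.Y788.SLS.Stm
import Pool.Agent.Y185.SL.C

/-!
# The abstract move, solvable version
-/

set_option autoImplicit false

namespace Pool.Agent.Y788.SLS

open Pool.Agent.H302R2 Pool.Agent.H302R3

/-- the group generated by a commutative subgroup `D` and two elements which normalise `D` and
commute modulo `D` is solvable -/
theorem sol_closure {S : Type} [Group S] [Finite S] (D : Subgroup S) (g a : S)
    (hD : ∀ d ∈ D, ∀ d' ∈ D, d * d' = d' * d)
    (hg : ∀ d ∈ D, g * d * g⁻¹ ∈ D) (ha : ∀ d ∈ D, a * d = d * a) (hga : g * a * g⁻¹ * a⁻¹ ∈ D) :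
    Group.IsSolvable (Subgroup.closure ((D : Set S) ∪ {g, a})) := by
  classical
  set K := Subgroup.closure ((D : Set S) ∪ {g, a}) with hK
  have hgN : g ∈ Subgroup.normalizer (D : Set S) := Subgroup.mem_normalizer_fintype hg
  have haN : a ∈ Subgroup.normalizer (D : Set S) := Subgroup.mem_normalizer_fintype fun d hd => by
    rw [ha d hd, mul_inv_cancel_right]
    exact hd
  have hKN : K ≤ Subgroup.normalizer (D : Set S) := by
    rw [hK, Subgroup.closure_le]
    rintro x (hx | hx | hx)
    · exact Subgroup.le_normalizer hx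
    · rw [hx]; exact hgN
    · rw [Set.mem_singleton_iff.mp hx]; exact haN
  have hDK : D ≤ K := fun d hd => Subgroup.subset_closure (Or.inl hd)
  have hN : (D.subgroupOf K).Normal := by
    constructor
    intro n hn k
    rw [Subgroup.mem_subgroupOf] at hn ⊢
    exact (Subgroup.mem_normalizer_iff.1 (hKN k.2) _).1 hn
  rw [Group.isSolvable_iff_subgroup_quotient (D.subgroupOf K)]
  constructor
  · apply sol_of_comm
    intro x y
    apply Subtype.ext
    apply Subtype.ext
    exact hD _ x.2 _ y.2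
  · apply sol_of_comm
    have hgK : g ∈ K := Subgroup.subset_closure (by simp)
    have haK : a ∈ K := Subgroup.subset_closure (by simp)
    set π := QuotientGroup.mk' (D.subgroupOf K) with hπ
    have hga' : π ⟨g, hgK⟩ * π ⟨a, haK⟩ = π ⟨a, haK⟩ * π ⟨g, hgK⟩ := by
      rw [← map_mul, ← map_mul, hπ, QuotientGroup.mk'_apply, QuotientGroup.mk'_apply, eq_comm,
        QuotientGroup.eq, Subgroup.mem_subgroupOf]
      have h7 : ((((⟨a, haK⟩ : K) * ⟨g, hgK⟩)⁻¹ * (⟨g, hgK⟩ * ⟨a, haK⟩) : K) : S) =
          (a * g)⁻¹ * (g * a * g⁻¹ * a⁻¹) * (a * g) := by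
        simp only [Subgroup.coe_mul, Subgroup.coe_inv]
        group
      rw [h7]
      have h8 : (a * g)⁻¹ ∈ Subgroup.normalizer (D : Set S) :=
        Subgroup.inv_mem _ (Subgroup.mul_mem _ haN hgN)
      have h9 := (Subgroup.mem_normalizer_iff.1 h8 (g * a * g⁻¹ * a⁻¹)).1 hga
      rwa [inv_inv] at h9
    have hT : ∀ x ∈ (π '' (((↑) : K → S) ⁻¹' ((D : Set S) ∪ {g, a}))), x = 1 ∨
        x = π ⟨g, hgK⟩ ∨ x = π ⟨a, haK⟩ := by
      rintro x ⟨y, hy, rfl⟩
      rcases hy with hy | hy | hy
      · left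
        rw [hπ, QuotientGroup.mk'_apply, QuotientGroup.eq_one_iff, Subgroup.mem_subgroupOf]
        exact hy
      · right; left
        congr 1
        exact Subtype.ext hy
      · right; right
        congr 1
        exact Subtype.ext hy
    have hcomm : ∀ x ∈ (π '' (((↑) : K → S) ⁻¹' ((D : Set S) ∪ {g, a}))),
        ∀ y ∈ (π '' (((↑) : K → S) ⁻¹' ((D : Set S) ∪ {g, a}))), x * y = y * x := by
      intro x hx y hy
      rcases hT x hx with rfl | rfl | rfl <;> rcases hT y hy with rfl | rfl | rfl <;>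
        simp [hga']
    have hcm := Subgroup.isMulCommutative_closure hcomm
    have htop : Subgroup.closure (π '' (((↑) : K → S) ⁻¹' ((D : Set S) ∪ {g, a}))) = ⊤ := by
      have h5 : Subgroup.closure (((↑) : K → S) ⁻¹' ((D : Set S) ∪ {g, a})) = ⊤ :=
        Subgroup.closure_closure_coe_preimage
      rw [← MonoidHom.map_closure, h5, ← MonoidHom.range_eq_map, MonoidHom.range_eq_top]
      exact QuotientGroup.mk'_surjective _
    intro x y
    have hx : x ∈ Subgroup.closure (π '' (((↑) : K → S) ⁻¹' ((D : Set S) ∪ {g, a}))) := by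
      rw [htop]; exact Subgroup.mem_top x
    have hy : y ∈ Subgroup.closure (π '' (((↑) : K → S) ⁻¹' ((D : Set S) ∪ {g, a}))) := by
      rw [htop]; exact Subgroup.mem_top y
    exact congrArg Subtype.val (hcm.is_comm.comm ⟨x, hx⟩ ⟨y, hy⟩)

theorem t_C : SC := by
  intro S _ _ θ hθ D g a f hD hgD haD hga ha2 h1 h2 h3 h4
  have hsol := sol_closure D g a hD hgD haD hga
  set K := Subgroup.closure ((D : Set S) ∪ {g, a}) with hK
  have hgK : g ∈ K := Subgroup.subset_closure (by simp)
  have haK : a ∈ K := Subgroup.subset_closure (by simp)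
  have hDK : D ≤ K := fun d hd => Subgroup.subset_closure (Or.inl hd)
  have h := Pool.Agent.Y185.SL.t_C K (fun e : K => θ (K.subtype e)) (hθ.comp_sol hsol K.subtype)
    (D.subgroupOf K) ⟨g, hgK⟩ ⟨a, haK⟩ f
    (fun d hd => by
      rw [Subgroup.mem_subgroupOf] at hd ⊢
      exact hgD _ hd)
    (fun d hd => by
      rw [Subgroup.mem_subgroupOf] at hd
      exact Subtype.ext (haD _ hd))
    (by
      rw [Subgroup.mem_subgroupOf]
      exact hga)
    (Subtype.ext ha2)
    (fun d hd => h1 _ (Subgroup.mem_subgroupOf.mp hd))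
    (fun d hd => h2 _ (Subgroup.mem_subgroupOf.mp hd))
    (fun d hd hne => h3 _ (Subgroup.mem_subgroupOf.mp hd) fun h6 => hne (Subtype.ext h6))
    (fun d hd => h4 _ (Subgroup.mem_subgroupOf.mp hd))
  have hcard : Nat.card (D.subgroupOf K) = Nat.card D :=
    Nat.card_congr (Subgroup.subgroupOfEquivOfLe hDK).toEquiv
  rw [hcard] at h
  exact h

end Pool.Agent.Y788.SLS
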