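import Pool.Agent.Y788.SLS.Stm
import Pool.Agent.Y407.SL.G

set_option autoImplicit false

/-!
# Job SL-G: diagonal elements of `SL_n(F)`
-/

namespace Pool.Agent.Y788.SLS.G

open Matrix Pool.Agent.H302R2 Pool.Agent.H302R3 Pool.Agent.Y788.SL

variable {F : Type} [Field F]


namespace G407

/-- the equivalence of `Fin 2` and the other indices with `Fin n` -/
noncomputable def eij {n : ℕ} (i j : Fin n) (hij : i ≠ j) :
    Fin 2 ⊕ {k : Fin n // k ≠ i ∧ k ≠ j} ≃ Fin n :=
  Equiv.ofBijective (Sum.elim ![i, j] Subtype.val) (by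
    constructor
    · rintro (a | a) (b | b) h
      · fin_cases a <;> fin_cases b <;> simp_all
      · exfalso
        fin_cases a
        · exact b.2.1 h.symm
        · exact b.2.2 h.symm
      · exfalso
        fin_cases b
        · exact a.2.1 h
        · exact a.2.2 h
      · rw [Sum.elim_inr, Sum.elim_inr] at h
        rw [Subtype.ext h]
    · intro k
      by_cases hi : k = i
      · exact ⟨Sum.inl 0, hi.symm⟩
      · by_cases hj : k = j
        · exact ⟨Sum.inl 1, hj.symm⟩
        · exact ⟨Sum.inr ⟨k, hi, hj⟩, rfl⟩)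

theorem eij_zero {n : ℕ} (i j : Fin n) (hij : i ≠ j) : eij i j hij (Sum.inl 0) = i := rfl
theorem eij_one {n : ℕ} (i j : Fin n) (hij : i ≠ j) : eij i j hij (Sum.inl 1) = j := rfl
theorem eij_inr {n : ℕ} (i j : Fin n) (hij : i ≠ j) (k : {k : Fin n // k ≠ i ∧ k ≠ j}) :
    eij i j hij (Sum.inr k) = k.1 := rfl

/-- the embedding of `SL_2` on the rows and columns `i`, `j` -/
noncomputable def Lij {n : ℕ} (i j : Fin n) (hij : i ≠ j) :
    SpecialLinearGroup (Fin 2) F →* SpecialLinearGroup (Fin n) F where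
  toFun h := ⟨Matrix.reindex (eij i j hij) (eij i j hij) (Matrix.fromBlocks h.1 0 0 1), by
    rw [Matrix.det_reindex_self, Matrix.det_fromBlocks_zero₂₁, h.2, det_one, mul_one]⟩
  map_one' := by
    apply Subtype.ext
    change Matrix.reindex (eij i j hij) (eij i j hij)
      (Matrix.fromBlocks (1 : Matrix (Fin 2) (Fin 2) F) 0 0 1) = 1
    rw [Matrix.fromBlocks_one, Matrix.reindex_apply, Matrix.submatrix_one_equiv]
  map_mul' h h' := by
    apply Subtype.ext
    change Matrix.reindex (eij i j hij) (eij i j hij) (Matrix.fromBlocks (h.1 * h'.1) 0 0 1) =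
      Matrix.reindex (eij i j hij) (eij i j hij) (Matrix.fromBlocks h.1 0 0 1) *
      Matrix.reindex (eij i j hij) (eij i j hij) (Matrix.fromBlocks h'.1 0 0 1)
    rw [Matrix.reindex_apply, Matrix.reindex_apply, Matrix.reindex_apply,
      Matrix.submatrix_mul_equiv, Matrix.fromBlocks_multiply]
    simp

theorem Lij_apply {n : ℕ} (i j : Fin n) (hij : i ≠ j) (h : SpecialLinearGroup (Fin 2) F)
    (x y : Fin 2 ⊕ {k : Fin n // k ≠ i ∧ k ≠ j}) :
    (Lij i j hij h : Matrix (Fin n) (Fin n) F) (eij i j hij x) (eij i j hij y) =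
      Matrix.fromBlocks h.1 0 0 1 x y := by
  change Matrix.reindex (eij i j hij) (eij i j hij) (Matrix.fromBlocks h.1 0 0 1)
    (eij i j hij x) (eij i j hij y) = _
  rw [Matrix.reindex_apply, Matrix.submatrix_apply, Equiv.symm_apply_apply,
    Equiv.symm_apply_apply]

/-- a diagonal matrix with equal entries at `i` and `j` commutes with the embedded `SL_2` -/
theorem Lij_comm {n : ℕ} (i j : Fin n) (hij : i ≠ j) (h : SpecialLinearGroup (Fin 2) F)
    (d : Fin n → F) (hd : d i = d j) :
    Matrix.diagonal d * (Lij i j hij h : Matrix (Fin n) (Fin n) F) =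
      (Lij i j hij h : Matrix (Fin n) (Fin n) F) * Matrix.diagonal d := by
  ext a b
  rw [Matrix.diagonal_mul, Matrix.mul_diagonal]
  obtain ⟨x, rfl⟩ := (eij i j hij).surjective a
  obtain ⟨y, rfl⟩ := (eij i j hij).surjective b
  rw [Lij_apply]
  have h2 : ∀ t : Fin 2, d (eij i j hij (Sum.inl t)) = d i := by
    intro t
    fin_cases t
    · rfl
    · exact hd.symm
  rcases x with x | x <;> rcases y with y | y
  · rw [h2, h2]; ring
  · simp
  · simp
  · simp only [Matrix.fromBlocks_apply₂₂]
    by_cases hxy : x = y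
    · rw [hxy]; ring
    · rw [Matrix.one_apply_ne hxy]; ring

/-- the diagonal elements of the embedded `SL_2` -/
theorem Lij_tc {n : ℕ} (i j : Fin n) (hij : i ≠ j) (c : Fˣ) (d d' : Fin n → F)
    (hi : d' i = d i * c) (hj : d' j = d j * ((c⁻¹ : Fˣ) : F))
    (hk : ∀ k, k ≠ i → k ≠ j → d' k = d k) :
    Matrix.diagonal d * (Lij i j hij (tc c) : Matrix (Fin n) (Fin n) F) = Matrix.diagonal d' := by
  ext a b
  rw [Matrix.diagonal_mul]
  obtain ⟨x, rfl⟩ := (eij i j hij).surjective a
  obtain ⟨y, rfl⟩ := (eij i j hij).surjective b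
  rw [Lij_apply]
  by_cases hxy : x = y
  · subst hxy
    rw [Matrix.diagonal_apply_eq]
    rcases x with x | x
    · rw [Matrix.fromBlocks_apply₁₁]
      fin_cases x
      · exact hi.symm
      · exact hj.symm
    · rw [Matrix.fromBlocks_apply₂₂, Matrix.one_apply_eq, mul_one, eij_inr]
      exact (hk _ x.2.1 x.2.2).symm
  · rw [Matrix.diagonal_apply_ne _ (fun hh => hxy ((eij i j hij).injective hh))]
    rcases x with x | x <;> rcases y with y | y
    · rw [Matrix.fromBlocks_apply₁₁]
      fin_cases x <;> fin_cases y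
      · exact absurd rfl hxy
      · simp [tc]
      · simp [tc]
      · exact absurd rfl hxy
    · simp
    · simp
    · rw [Matrix.fromBlocks_apply₂₂, Matrix.one_apply_ne (fun hh => hxy (by rw [hh])), mul_zero]

/-- the unipotent element -/
theorem Lij_ux {n : ℕ} (i j : Fin n) (hij : i ≠ j) :
    (Lij i j hij (ux (1 : F)) : Matrix (Fin n) (Fin n) F) =
      1 + vecMulVec (Pi.single i 1) (Pi.single j 1) := by
  ext a b
  obtain ⟨x, rfl⟩ := (eij i j hij).surjective a
  obtain ⟨y, rfl⟩ := (eij i j hij).surjective b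
  rw [Lij_apply, Matrix.add_apply, Matrix.vecMulVec_apply]
  rcases x with x | x <;> rcases y with y | y
  · rw [Matrix.fromBlocks_apply₁₁]
    fin_cases x <;> fin_cases y
    · change (1 : F) = (1 : Matrix (Fin n) (Fin n) F) i i +
        (Pi.single i (1 : F) : Fin n → F) i * (Pi.single j (1 : F) : Fin n → F) i
      simp [hij]
    · change (1 : F) = (1 : Matrix (Fin n) (Fin n) F) i j +
        (Pi.single i (1 : F) : Fin n → F) i * (Pi.single j (1 : F) : Fin n → F) j
      simp [hij]
    · change (0 : F) = (1 : Matrix (Fin n) (Fin n) F) j i +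
        (Pi.single i (1 : F) : Fin n → F) j * (Pi.single j (1 : F) : Fin n → F) i
      simp [hij.symm]
    · change (1 : F) = (1 : Matrix (Fin n) (Fin n) F) j j +
        (Pi.single i (1 : F) : Fin n → F) j * (Pi.single j (1 : F) : Fin n → F) j
      simp [hij.symm]
  · rw [eij_inr, Pi.single_eq_of_ne y.2.2, mul_zero, add_zero,
      Matrix.one_apply_ne (fun hh => Sum.inl_ne_inr ((eij i j hij).injective
        (hh.trans (eij_inr i j hij y).symm)))]
    simp
  · rw [eij_inr, Pi.single_eq_of_ne x.2.1, zero_mul, add_zero,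
      Matrix.one_apply_ne (fun hh => Sum.inr_ne_inl ((eij i j hij).injective
        ((eij_inr i j hij x).trans hh)))]
    simp
  · rw [eij_inr, eij_inr, Pi.single_eq_of_ne x.2.1, zero_mul, add_zero,
      Matrix.fromBlocks_apply₂₂]
    by_cases hxy : x = y
    · rw [hxy, Matrix.one_apply_eq, Matrix.one_apply_eq]
    · rw [Matrix.one_apply_ne hxy, Matrix.one_apply_ne (fun hh => hxy (Subtype.ext hh))]

theorem Lij_isTv {n : ℕ} (i j : Fin n) (hij : i ≠ j) : IsTv (Lij i j hij (ux (1 : F))) := by
  refine ⟨Pi.single i 1, Pi.single j 1, ?_, ?_, ?_, Lij_ux i j hij⟩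
  · intro h
    have := congrFun h i
    simp at this
  · intro h
    have := congrFun h j
    simp at this
  · simp [hij.symm]

/-- comparison of a diagonal element with a twisted transvection -/
theorem move (hB : SB) (hE : SE) {F : Type} [Field F] [Finite F] [CharP F 2] {n : ℕ}
    (θ : SpecialLinearGroup (Fin n) F → ℂ) (hθ : IsSolHeilbronn θ) (f : ℝ)
    (hf : ∀ g, IsTv g → θ g = (f : ℂ)) (i j : Fin n) (hij : i ≠ j)
    (g0 g1 : SpecialLinearGroup (Fin n) F) (d0 d1 : Fin n → F)
    (h0 : (g0 : Matrix (Fin n) (Fin n) F) = Matrix.diagonal d0)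
    (h1 : (g1 : Matrix (Fin n) (Fin n) F) = Matrix.diagonal d1)
    (s y : F) (hi0 : d0 i = s) (hj0 : d0 j = s) (hy : y ≠ 0) (hi1 : d1 i = s * y)
    (hj1 : d1 j = s * y⁻¹) (hk : ∀ k, k ≠ i → k ≠ j → d1 k = d0 k)
    (hy1 : y = 1 → ∃ k, d0 k ≠ s) :
    ‖θ g1 - θ (g0 * Lij i j hij (ux 1))‖ ≤ 5 * (((θ 1).re - f) / Nat.card F) := by
  by_cases hy2 : y = 1
  · obtain ⟨k, hk2⟩ := hy1 hy2
    have e1 : g1 = g0 := by
      apply Subtype.ext
      rw [h0, h1]
      congr 1
      funext a
      by_cases hai : a = i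
      · rw [hai, hi1, hi0, hy2, mul_one]
      · by_cases haj : a = j
        · rw [haj, hj1, hj0, hy2, inv_one, mul_one]
        · exact hk a hai haj
    rw [e1]
    have hki : k ≠ i := by rintro rfl; exact hk2 hi0
    have e2 : ‖θ g0 - θ (g0 * Lij i j hij (ux 1))‖ ≤ ((θ 1).re - f) / Nat.card F := by
      refine hE F n θ hθ f hf g0 (g0 * Lij i j hij (ux 1)) (Pi.single i 1) (Pi.single j s) s
        ?_ ?_ ?_ ?_ ?_
      · intro h
        have := congrFun h i
        simp at this
      · rw [h0]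
        funext a
        rw [Matrix.mulVec_diagonal, Pi.smul_apply, smul_eq_mul]
        by_cases hai : a = i
        · rw [hai, hi0]
        · rw [Pi.single_eq_of_ne hai, mul_zero, mul_zero]
      · refine ⟨Pi.single k 1, fun c hc => ?_⟩
        have := congrFun hc k
        rw [h0, Pi.sub_apply, Matrix.mulVec_diagonal, Pi.smul_apply, Pi.smul_apply, smul_eq_mul,
          smul_eq_mul, Pi.single_eq_same, Pi.single_eq_of_ne hki, mul_zero, mul_one,
          mul_one] at this
        exact hk2 (sub_eq_zero.1 this)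
      · simp [Pi.single_eq_of_ne hij]
      · rw [Matrix.SpecialLinearGroup.coe_mul, Lij_ux, mul_add, mul_one, h0]
        congr 1
        rw [Matrix.mul_vecMulVec]
        ext a b
        rw [Matrix.vecMulVec_apply, Matrix.vecMulVec_apply, Matrix.mulVec_diagonal]
        by_cases hai : a = i
        · rw [hai, hi0, Pi.single_eq_same, mul_one, one_mul]
          by_cases hbj : b = j
          · rw [hbj, Pi.single_eq_same, Pi.single_eq_same, mul_one]
          · rw [Pi.single_eq_of_ne hbj, Pi.single_eq_of_ne hbj, mul_zero]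
        · rw [Pi.single_eq_of_ne hai, mul_zero, zero_mul, zero_mul]
    have e3 : 0 ≤ ((θ 1).re - f) / (Nat.card F : ℝ) := (norm_nonneg _).trans e2
    linarith
  · obtain ⟨c, hc⟩ : ∃ c : Fˣ, (c : F) = y := ⟨Units.mk0 y hy, rfl⟩
    have hc1 : c ≠ 1 := by
      rintro rfl
      exact hy2 hc.symm
    have e1 : g1 = g0 * Lij i j hij (tc c) := by
      apply Subtype.ext
      rw [Matrix.SpecialLinearGroup.coe_mul, h0, Lij_tc i j hij c d0 d1 _ _ hk]
      · exact h1
      · rw [hi1, hi0, hc]
      · rw [hj1, hj0, Units.val_inv_eq_inv_val, hc]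
    have e2 : ∀ h, g0 * Lij i j hij h = Lij i j hij h * g0 := by
      intro h
      apply Subtype.ext
      rw [Matrix.SpecialLinearGroup.coe_mul, Matrix.SpecialLinearGroup.coe_mul, h0]
      exact Lij_comm i j hij h d0 (hi0.trans hj0.symm)
    have e3 := hB F (SpecialLinearGroup (Fin n) F) θ hθ (Lij i j hij) g0 e2 c hc1
    rw [← e1, hf _ (Lij_isTv i j hij), Complex.ofReal_re] at e3
    refine e3.trans (le_of_eq (by ring))

theorem prod_two {n : ℕ} (i j : Fin n) (hij : i ≠ j) (d d' : Fin n → F)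
    (h : d' i * d' j = d i * d j) (hk : ∀ k, k ≠ i → k ≠ j → d' k = d k) :
    ∏ k, d' k = ∏ k, d k := by
  have hj : j ∈ Finset.univ.erase i := Finset.mem_erase.2 ⟨hij.symm, Finset.mem_univ _⟩
  rw [← Finset.mul_prod_erase Finset.univ d' (Finset.mem_univ i),
    ← Finset.mul_prod_erase Finset.univ d (Finset.mem_univ i),
    ← Finset.mul_prod_erase _ d' hj, ← Finset.mul_prod_erase _ d hj, ← mul_assoc, ← mul_assoc, h]
  congr 1
  refine Finset.prod_congr rfl (fun k hk2 => ?_)
  rw [Finset.mem_erase, Finset.mem_erase] at hk2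
  exact hk k hk2.2.1 hk2.1

theorem main (hB : SB) (hE : SE) {F : Type} [Field F] [Finite F] [CharP F 2] {n : ℕ}
    (θ : SpecialLinearGroup (Fin n) F → ℂ) (hθ : IsSolHeilbronn θ) (f : ℝ)
    (hf : ∀ g, IsTv g → θ g = (f : ℂ)) :
    ∀ (m : ℕ) (g : SpecialLinearGroup (Fin n) F) (d : Fin n → F),
    (g : Matrix (Fin n) (Fin n) F) = Matrix.diagonal d → (∃ i j, d i ≠ d j) →
    (∃ A : Finset (Fin n), A.card = m ∧ ∀ k, k ∈ A ↔ d k ≠ 1) →
    1 ≤ m ∧ ‖θ g - (f : ℂ)‖ ≤ 10 * m * (((θ 1).re - f) / Nat.card F) := by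
  intro m
  induction m using Nat.strong_induction_on with
  | _ m ih =>
  intro g d hg hnc ⟨A, hAm, hA⟩
  obtain ⟨ε, hε⟩ : ∃ ε : ℝ, ε = ((θ 1).re - f) / Nat.card F := ⟨_, rfl⟩
  rw [← hε] at ih ⊢
  have hdet : ∏ k, d k = 1 := by
    have := g.2
    rw [hg, Matrix.det_diagonal] at this
    exact this
  have hd0 : ∀ k, d k ≠ 0 := by
    intro k hk
    rw [Finset.prod_eq_zero (Finset.mem_univ k) hk] at hdet
    exact zero_ne_one hdet
  have hprodA : ∏ k ∈ A, d k = 1 := by
    rw [← hdet]
    apply Finset.prod_subset (Finset.subset_univ A)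
    intro k _ hk
    by_contra h
    exact hk ((hA k).2 h)
  -- two distinct elements of `A`
  have hA2 : 2 ≤ A.card := by
    by_contra hlt
    have h01 : A.card = 0 ∨ A.card = 1 := by omega
    rcases h01 with h01 | h01
    · rw [Finset.card_eq_zero] at h01
      obtain ⟨i, j, hij⟩ := hnc
      have e1 : ∀ k, d k = 1 := by
        intro k
        by_contra h
        have := (hA k).2 h
        rw [h01] at this
        exact absurd this (Finset.notMem_empty k)
      exact hij (by rw [e1, e1])
    · obtain ⟨i, hi⟩ := Finset.card_eq_one.1 h01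
      rw [hi, Finset.prod_singleton] at hprodA
      exact (hA i).1 (by rw [hi]; exact Finset.mem_singleton_self i) hprodA
  obtain ⟨i, hi, j, hj, hij⟩ := Finset.one_lt_card.1 (show 1 < A.card by omega)
  by_cases hm : A.card = 2
  · -- exactly two entries
    have hA' : A = {i, j} := by
      symm
      apply Finset.eq_of_subset_of_card_le
      · intro k hk
        rw [Finset.mem_insert, Finset.mem_singleton] at hk
        rcases hk with rfl | rfl
        · exact hi
        · exact hj
      · rw [hm, Finset.card_pair hij]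
    rw [hA', Finset.prod_pair hij] at hprodA
    have e1 := move hB hE θ hθ f hf i j hij 1 g (fun _ => 1) d
      (by rw [Matrix.SpecialLinearGroup.coe_one, Matrix.diagonal_one]) hg 1 (d i) rfl rfl (hd0 i)
      (by rw [one_mul]) (by rw [one_mul]; exact eq_inv_of_mul_eq_one_right hprodA) (by
        intro k hki hkj
        by_contra h
        have := (hA k).2 h
        rw [hA', Finset.mem_insert, Finset.mem_singleton] at this
        rcases this with h | h
        · exact hki h
        · exact hkj h) (fun h => absurd h ((hA i).1 hi))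
    rw [one_mul, hf _ (Lij_isTv i j hij), ← hε] at e1
    have e2 : 0 ≤ 5 * ε := (norm_nonneg _).trans e1
    refine ⟨by omega, ?_⟩
    have e3 : (m : ℝ) = 2 := by rw [← hAm, hm]; norm_num
    rw [e3]
    linarith
  · -- at least three entries
    obtain ⟨k, hkA, hki, hkj⟩ : ∃ k ∈ A, k ≠ i ∧ k ≠ j := by
      by_contra hcon
      push Not at hcon
      have e1 : A ⊆ {i, j} := by
        intro k hk
        rw [Finset.mem_insert, Finset.mem_singleton]
        by_cases hki : k = i
        · exact Or.inl hki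
        · exact Or.inr (hcon k hk hki)
      have e2 := Finset.card_le_card e1
      rw [Finset.card_pair hij] at e2
      omega
    have hdk : d k ≠ 1 := (hA k).1 hkA
    obtain ⟨s, hs⟩ : IsSquare (d i * d j) :=
      FiniteField.isSquare_of_char_two (ringChar.eq F 2) (d i * d j)
    have hs0 : s ≠ 0 := by
      rintro rfl
      rw [mul_zero] at hs
      rcases mul_eq_zero.1 hs with h | h
      · exact hd0 i h
      · exact hd0 j h
    obtain ⟨d0, hd0'⟩ : ∃ d0 : Fin n → F, d0 = fun k => if k = i ∨ k = j then s else d k := ⟨_, rfl⟩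
    have d0i : d0 i = s := by rw [hd0']; simp
    have d0j : d0 j = s := by rw [hd0']; simp
    have d0k : ∀ k, k ≠ i → k ≠ j → d0 k = d k := by
      intro k h1 h2
      rw [hd0']; simp [h1, h2]
    obtain ⟨d1, hd1'⟩ : ∃ d1 : Fin n → F, d1 = fun k => if k = i then d i * d j else
      if k = j then 1 else d k := ⟨_, rfl⟩
    have d1i : d1 i = d i * d j := by rw [hd1']; simp
    have d1j : d1 j = 1 := by rw [hd1']; simp [hij.symm]
    have d1k : ∀ k, k ≠ i → k ≠ j → d1 k = d k := by
      intro k h1 h2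
      rw [hd1']; simp [h1, h2]
    have p0 : ∏ k, d0 k = 1 := by
      rw [← hdet]
      refine prod_two i j hij d d0 ?_ d0k
      rw [d0i, d0j, hs]
    have p1 : ∏ k, d1 k = 1 := by
      rw [← hdet]
      refine prod_two i j hij d d1 ?_ d1k
      rw [d1i, d1j, mul_one]
    obtain ⟨g0, hg0⟩ : ∃ g0 : SpecialLinearGroup (Fin n) F,
        (g0 : Matrix (Fin n) (Fin n) F) = Matrix.diagonal d0 :=
      ⟨⟨Matrix.diagonal d0, by rw [Matrix.det_diagonal, p0]⟩, rfl⟩
    obtain ⟨g1, hg1⟩ : ∃ g1 : SpecialLinearGroup (Fin n) F,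
        (g1 : Matrix (Fin n) (Fin n) F) = Matrix.diagonal d1 :=
      ⟨⟨Matrix.diagonal d1, by rw [Matrix.det_diagonal, p1]⟩, rfl⟩
    have e1 : ‖θ g - θ (g0 * Lij i j hij (ux 1))‖ ≤ 5 * ε := by
      rw [hε]
      refine move hB hE θ hθ f hf i j hij g0 g d0 d hg0 hg s (d i * s⁻¹) d0i d0j
        (mul_ne_zero (hd0 i) (inv_ne_zero hs0)) ?_ ?_ (fun k h1 h2 => (d0k k h1 h2).symm) ?_
      · field_simp
      · have := hd0 i
        field_simp
        rw [mul_comm, hs]
        ring
      · intro h
        have h1 : d i = s := by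
          rw [← mul_inv_cancel_right₀ hs0 (d i), mul_assoc, mul_comm s s⁻¹, ← mul_assoc, h, one_mul]
        have h2 : d j = s := by
          rw [h1] at hs
          exact mul_left_cancel₀ hs0 hs
        obtain ⟨a, b, hab⟩ := hnc
        by_contra hcon
        push Not at hcon
        have h3 : ∀ a, d a = s := by
          intro a
          by_cases hai : a = i
          · rw [hai, h1]
          · by_cases haj : a = j
            · rw [haj, h2]
            · rw [← d0k a hai haj]; exact hcon a
        exact hab (by rw [h3, h3])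
    have e2 : ‖θ g1 - θ (g0 * Lij i j hij (ux 1))‖ ≤ 5 * ε := by
      rw [hε]
      refine move hB hE θ hθ f hf i j hij g0 g1 d0 d1 hg0 hg1 s s d0i d0j hs0 ?_ ?_
        (fun k h1 h2 => by rw [d0k k h1 h2, d1k k h1 h2]) ?_
      · rw [d1i, hs]
      · rw [d1j, mul_inv_cancel₀ hs0]
      · intro h
        exact ⟨k, by rw [d0k k hki hkj, h]; exact hdk⟩
    obtain ⟨A1, hA1⟩ : ∃ A1 : Finset (Fin n), ∀ k, k ∈ A1 ↔ d1 k ≠ 1 := by
      classical
      exact ⟨Finset.univ.filter (fun k => d1 k ≠ 1), fun k => by simp⟩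
    have hsub : A1 ⊆ A.erase j := by
      intro a ha
      have h1 := (hA1 a).1 ha
      have haj : a ≠ j := by rintro rfl; exact h1 d1j
      refine Finset.mem_erase.2 ⟨haj, ?_⟩
      by_cases hai : a = i
      · rw [hai]; exact hi
      · rw [d1k a hai haj] at h1
        exact (hA a).2 h1
    have hcard := Finset.card_le_card hsub
    rw [Finset.card_erase_of_mem hj] at hcard
    obtain ⟨e3, e4⟩ := ih A1.card (by omega) g1 d1 hg1
      ⟨j, k, by rw [d1j, d1k k hki hkj]; exact fun h => hdk h.symm⟩ ⟨A1, rfl, hA1⟩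
    have e5 : 0 ≤ ε := by
      have := (norm_nonneg _).trans e1
      linarith
    refine ⟨by omega, ?_⟩
    have e6 : (A1.card : ℝ) ≤ m - 1 := by
      have : A1.card + 1 ≤ m := by omega
      have h2 : ((A1.card + 1 : ℕ) : ℝ) ≤ m := by exact_mod_cast this
      push_cast at h2
      linarith
    have e7 : 10 * (A1.card : ℝ) * ε ≤ 10 * (m - 1) * ε :=
      mul_le_mul_of_nonneg_right (by linarith) e5
    have e8 : θ g - (f : ℂ) = (θ g - θ (g0 * Lij i j hij (ux 1))) -
        (θ g1 - θ (g0 * Lij i j hij (ux 1))) + (θ g1 - f) := by ring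
    rw [e8]
    refine (norm_add_le _ _).trans ?_
    have e9 := norm_sub_le (θ g - θ (g0 * Lij i j hij (ux 1)))
      (θ g1 - θ (g0 * Lij i j hij (ux 1)))
    linarith

end G407

theorem t_G : SB → SE → SG := by
  intro hB hE F _ _ _ n θ hθ f hf g d hg hnc
  classical
  obtain ⟨h1, h2⟩ := G407.main hB hE θ hθ f hf _ g d hg hnc
    ⟨Finset.univ.filter (fun k => d k ≠ 1), rfl, fun k => by simp⟩
  have h3 := (Finset.univ.filter (fun k => d k ≠ 1)).card_le_univ
  rw [Fintype.card_fin] at h3
  generalize (Finset.univ.filter (fun k => d k ≠ 1)).card = m at *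
  have h4 : 0 ≤ ((θ 1).re - f) / (Nat.card F : ℝ) := by
    by_contra hlt
    push Not at hlt
    have h5 : 0 < 10 * (m : ℝ) := by
      have : (1 : ℝ) ≤ m := by exact_mod_cast h1
      linarith
    have h6 := mul_neg_of_pos_of_neg h5 hlt
    have h7 := (norm_nonneg _).trans h2
    linarith
  refine h2.trans (mul_le_mul_of_nonneg_right ?_ h4)
  have : (m : ℝ) ≤ n := by exact_mod_cast h3
  linarith

end Pool.Agent.Y788.SLS.G
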