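import Pool.Agent.Y788.SLS.Stm
import Pool.Agent.Y891.SL.JobT

set_option autoImplicit false

/-! Project SL (helper788), job T. -/

namespace Pool.Agent.Y788.SLS.T

open Matrix Pool.Agent.H302R2 Pool.Agent.H302R3 Pool.Agent.H541R3.ART Pool.Agent.Y788.SL

section

variable {F : Type} [Field F]

/-- the embedding of `SL_2(F)` in `SL_{2+m}(F)` -/
noncomputable def emb (m : ℕ) :
    SpecialLinearGroup (Fin 2) F →* SpecialLinearGroup (Fin (2 + m)) F where
  toFun h := ⟨(Matrix.fromBlocks (h : Matrix (Fin 2) (Fin 2) F) 0 0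
    (1 : Matrix (Fin m) (Fin m) F)).submatrix finSumFinEquiv.symm finSumFinEquiv.symm, by
      rw [det_submatrix_equiv_self, det_fromBlocks_zero₂₁, det_one, mul_one]
      exact h.2⟩
  map_one' := by
    apply Subtype.ext
    show (Matrix.fromBlocks (1 : Matrix (Fin 2) (Fin 2) F) 0 0
      (1 : Matrix (Fin m) (Fin m) F)).submatrix finSumFinEquiv.symm finSumFinEquiv.symm = 1
    rw [fromBlocks_one, submatrix_one_equiv]
  map_mul' a b := by
    apply Subtype.ext
    show (Matrix.fromBlocks ((a : Matrix (Fin 2) (Fin 2) F) * (b : Matrix (Fin 2) (Fin 2) F)) 0 0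
      (1 : Matrix (Fin m) (Fin m) F)).submatrix finSumFinEquiv.symm finSumFinEquiv.symm =
      (Matrix.fromBlocks (a : Matrix (Fin 2) (Fin 2) F) 0 0
      (1 : Matrix (Fin m) (Fin m) F)).submatrix finSumFinEquiv.symm finSumFinEquiv.symm *
      (Matrix.fromBlocks (b : Matrix (Fin 2) (Fin 2) F) 0 0
      (1 : Matrix (Fin m) (Fin m) F)).submatrix finSumFinEquiv.symm finSumFinEquiv.symm
    rw [submatrix_mul_equiv, fromBlocks_multiply]
    simp

theorem emb_apply (m : ℕ) (h : SpecialLinearGroup (Fin 2) F) (a b : Fin 2 ⊕ Fin m) :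
    (emb m h : Matrix (Fin (2 + m)) (Fin (2 + m)) F) (finSumFinEquiv a) (finSumFinEquiv b) =
      Matrix.fromBlocks (h : Matrix (Fin 2) (Fin 2) F) 0 0 (1 : Matrix (Fin m) (Fin m) F) a b := by
  show (Matrix.fromBlocks (h : Matrix (Fin 2) (Fin 2) F) 0 0
      (1 : Matrix (Fin m) (Fin m) F)).submatrix finSumFinEquiv.symm finSumFinEquiv.symm _ _ = _
  rw [submatrix_apply, Equiv.symm_apply_apply, Equiv.symm_apply_apply]

theorem emb_ux_tv (m : ℕ) : IsTv (emb m (ux (1 : F))) := by
  have hs0 : ∀ (w : Fin 2 ⊕ Fin m → F) a, (w ∘ finSumFinEquiv.symm) (finSumFinEquiv a) = w a := by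
    intro w a
    rw [Function.comp_apply, Equiv.symm_apply_apply]
  refine ⟨(Sum.elim ![1, 0] 0 : Fin 2 ⊕ Fin m → F) ∘ finSumFinEquiv.symm,
    (Sum.elim ![0, 1] 0 : Fin 2 ⊕ Fin m → F) ∘ finSumFinEquiv.symm, ?_, ?_, ?_, ?_⟩
  · intro h
    have := congrFun h (finSumFinEquiv (Sum.inl 0))
    rw [hs0] at this
    simp at this
  · intro h
    have := congrFun h (finSumFinEquiv (Sum.inl 1))
    rw [hs0] at this
    simp at this
  · unfold dotProduct
    rw [← Equiv.sum_comp finSumFinEquiv, Fintype.sum_sum_type]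
    simp only [hs0]
    simp
  · ext i j
    obtain ⟨a, rfl⟩ := finSumFinEquiv.surjective i
    obtain ⟨b, rfl⟩ := finSumFinEquiv.surjective j
    have hone : (1 : Matrix (Fin (2 + m)) (Fin (2 + m)) F) (finSumFinEquiv a) (finSumFinEquiv b) =
        (1 : Matrix (Fin 2 ⊕ Fin m) (Fin 2 ⊕ Fin m) F) a b := by
      simp only [Matrix.one_apply, finSumFinEquiv.injective.eq_iff]
    rw [emb_apply, Matrix.add_apply, vecMulVec_apply, hs0, hs0, hone]
    rcases a with a | a <;> rcases b with b | b
    · fin_cases a <;> fin_cases b <;> simp [ux]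
    · simp
    · simp
    · simp [Matrix.one_apply]

end

theorem t_T (hB : SB) (hD : SD) (hG : SG) : ST := by
  classical
  intro F _ _ _ n θ hθ f hf g c v φ hv hφ hφv hg
  have hq : (0 : ℝ) < Nat.card F := by exact_mod_cast Nat.card_pos
  -- the transvection
  have hdt : (1 + vecMulVec v φ : Matrix (Fin n) (Fin n) F).det = 1 := by
    have h1 : (1 + vecMulVec v φ : Matrix (Fin n) (Fin n) F) =
        1 + replicateCol Unit v * replicateRow Unit φ := by
      congr 1
      ext i j
      simp [vecMulVec_apply, Matrix.mul_apply]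
    rw [h1]
    exact (det_one_add_replicateCol_mul_replicateRow (ι := Unit) v φ).trans (by rw [hφv, add_zero])
  let t : SpecialLinearGroup (Fin n) F := ⟨1 + vecMulVec v φ, hdt⟩
  have htv : IsTv t := ⟨v, φ, hv, hφ, hφv, rfl⟩
  have hfr : f ≤ (θ 1).re := by
    have h1 := hθ.norm_le t
    rw [hf t htv, Complex.norm_real] at h1
    exact (le_abs_self f).trans h1
  have hε : 0 ≤ ((θ 1).re - f) / Nat.card F := div_nonneg (by linarith) hq.le
  have hcn : c ^ n = 1 := by
    have h1 : (g : Matrix (Fin n) (Fin n) F).det = 1 := g.2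
    rw [hg, det_smul, hdt, mul_one, Fintype.card_fin] at h1
    exact h1
  by_cases hc : c = 1
  · have h1 : IsTv g := ⟨v, φ, hv, hφ, hφv, by rw [hg, hc, one_smul]⟩
    rw [hf g h1, sub_self, norm_zero]
    positivity
  have hn2 : 2 ≤ n := by
    by_contra hlt
    have hn01 : n = 0 ∨ n = 1 := by omega
    rcases hn01 with rfl | rfl
    · exact hv (Subsingleton.elim _ _)
    · have h1 : φ 0 * v 0 = 0 := by
        have := hφv
        simpa [dotProduct] using this
      rcases mul_eq_zero.1 h1 with h2 | h2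
      · apply hφ
        funext i
        rw [Subsingleton.elim i 0, h2]
        rfl
      · apply hv
        funext i
        rw [Subsingleton.elim i 0, h2]
        rfl
  obtain ⟨m, rfl⟩ := Nat.exists_eq_add_of_le hn2
  have hc0 : c ≠ 0 := by
    intro h
    rw [h, zero_pow (by omega)] at hcn
    exact zero_ne_one hcn
  let c' : Fˣ := Units.mk0 c hc0
  have hc' : c' ≠ 1 := by
    intro h
    apply hc
    have := congrArg (Units.val) h
    simpa [c'] using this
  let z : SpecialLinearGroup (Fin (2 + m)) F := ⟨c • 1, by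
    rw [det_smul, det_one, mul_one, Fintype.card_fin, hcn]⟩
  have hzc : ∀ h : SpecialLinearGroup (Fin (2 + m)) F, z * h = h * z := by
    intro h
    apply Subtype.ext
    show (c • (1 : Matrix (Fin (2 + m)) (Fin (2 + m)) F)) * (h : Matrix _ _ F) =
      (h : Matrix _ _ F) * (c • (1 : Matrix (Fin (2 + m)) (Fin (2 + m)) F))
    rw [smul_mul_assoc, one_mul, mul_smul_comm, mul_one]
  have hgz : g = z * t := by
    apply Subtype.ext
    show (g : Matrix _ _ F) = (c • (1 : Matrix (Fin (2 + m)) (Fin (2 + m)) F)) *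
      (1 + vecMulVec v φ)
    rw [hg, smul_mul_assoc, one_mul]
  obtain ⟨h, hh⟩ := hD F (2 + m) t (emb m (ux 1)) htv (emb_ux_tv m)
  have e1 : θ g = θ (z * emb m (ux 1)) := by
    rw [hgz, hh, ← hθ.conj (z * t) h]
    congr 1
    rw [← mul_assoc h z t, ← hzc h]
    group
  have e2 := hB F (SpecialLinearGroup (Fin (2 + m)) F) θ hθ (emb m) z (fun k => hzc _) c' hc'
  rw [hf _ (emb_ux_tv m), Complex.ofReal_re] at e2
  -- the diagonal element
  let d : Fin 2 ⊕ Fin m → F := Sum.elim ![c * c, 1] (fun _ => c)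
  have hdiag : ((z * emb m (tc c') : SpecialLinearGroup (Fin (2 + m)) F) :
      Matrix (Fin (2 + m)) (Fin (2 + m)) F) = Matrix.diagonal (d ∘ finSumFinEquiv.symm) := by
    show (c • (1 : Matrix (Fin (2 + m)) (Fin (2 + m)) F)) * (emb m (tc c') : Matrix _ _ F) = _
    rw [smul_mul_assoc, one_mul]
    ext i j
    obtain ⟨a, rfl⟩ := finSumFinEquiv.surjective i
    obtain ⟨b, rfl⟩ := finSumFinEquiv.surjective j
    have hdg : Matrix.diagonal (d ∘ finSumFinEquiv.symm) (finSumFinEquiv a) (finSumFinEquiv b) =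
        Matrix.diagonal d a b := by
      simp only [Matrix.diagonal_apply, finSumFinEquiv.injective.eq_iff, Function.comp_apply,
        Equiv.symm_apply_apply]
    rw [Matrix.smul_apply, emb_apply, hdg, smul_eq_mul, Matrix.diagonal_apply]
    rcases a with a | a <;> rcases b with b | b
    · fin_cases a <;> fin_cases b <;> simp [tc, d, c', hc0]
    · simp
    · simp
    · simp only [fromBlocks_apply₂₂, Matrix.one_apply, Sum.inr.injEq, d, Sum.elim_inr]
      split_ifs <;> simp
  have hne : ∃ i j, (d ∘ finSumFinEquiv.symm) i ≠ (d ∘ finSumFinEquiv.symm) j := by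
    refine ⟨finSumFinEquiv (Sum.inl 0), finSumFinEquiv (Sum.inl 1), ?_⟩
    rw [Function.comp_apply, Function.comp_apply, Equiv.symm_apply_apply, Equiv.symm_apply_apply]
    show c * c ≠ 1
    intro h
    apply hc
    have h1 : (c + 1) * (c + 1) = 0 := by
      have h2 : (2 : F) = 0 := CharTwo.two_eq_zero
      linear_combination h + (c + 1) * h2
    have h3 : c + 1 = 0 := by
      rcases mul_eq_zero.1 h1 with h | h <;> exact h
    have h4 : c = -1 := eq_neg_of_add_eq_zero_left h3
    rw [h4, CharTwo.neg_eq]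
  have e3 := hG F (2 + m) θ hθ f hf _ _ hdiag hne
  rw [e1]
  have e4 : θ (z * emb m (ux 1)) - f = (θ (z * emb m (tc c')) - f) -
      (θ (z * emb m (tc c')) - θ (z * emb m (ux 1))) := by ring
  rw [e4]
  refine (norm_sub_le _ _).trans ?_
  have e5 : 5 * ((θ 1).re - f) / Nat.card F = 5 * (((θ 1).re - f) / Nat.card F) := by ring
  rw [e5] at e2
  calc _ ≤ 10 * ((2 + m : ℕ) : ℝ) * (((θ 1).re - f) / Nat.card F) +
        5 * (((θ 1).re - f) / Nat.card F) := add_le_add e3 e2
    _ = _ := by ring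

end Pool.Agent.Y788.SLS.T
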