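import Pool.Agent.Y788.SLS.A
import Pool.Agent.Y788.SLS.B
import Pool.Agent.Y788.SLS.C
import Pool.Agent.Y788.SLS.E
import Pool.Agent.Y788.SLS.G
import Pool.Agent.Y788.SLS.T
import Pool.Agent.Y788.SLS.U
import Pool.Agent.Y788.SLS.N
import Pool.Agent.Y788.SLS.P
import Pool.Agent.Y788.SL.Main
import Pool.Agent.Y185.SL.D
import Pool.Agent.Y813.SL.Tri
import Pool.Agent.Y43.SL.K

set_option autoImplicit false

/-!
# Subgroups of `SL_n(F)` in characteristic two, solvable version: assembly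
-/

namespace Pool.Agent.Y788.SLS

open Matrix Pool.Agent.H302R2 Pool.Agent.H302R3 Pool.Agent.H541R3.ART Pool.Agent.Y786.FR
  Pool.Agent.Y786.FS Pool.Agent.W446.AS Pool.Agent.Y788.SL Filter Topology

/-- the value at an involution is real -/
lemma real_of_inv {S : Type} [Group S] [Finite S] {θ : S → ℂ} (hθ : IsSolHeilbronn θ) {u : S}
    (hu : u * u = 1) : θ u = (((θ u).re : ℝ) : ℂ) := by
  have h := Pool.Agent.Y788.SL.real_of_inv (hθ.zp u) (u := ⟨u, Subgroup.mem_zpowers u⟩)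
    (Subtype.ext hu)
  exact h

/-- the value on the transvections and the root subgroups -/
lemma root_nonneg {F : Type} [Field F] [Finite F] {n : ℕ}
    {θ : SpecialLinearGroup (Fin n) F → ℂ} (hθ : IsSolHeilbronn θ) (f : ℝ)
    (hf : ∀ g, IsTv g → θ g = (f : ℂ)) (hex : ∃ g : SpecialLinearGroup (Fin n) F, IsTv g) :
    0 ≤ (θ 1).re + (Nat.card F - 1) * f := by
  classical
  have : Fintype F := Fintype.ofFinite F
  have hS : Finite (SpecialLinearGroup (Fin n) F) := Subtype.finite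
  obtain ⟨g, v, φ, hv, hφ, hφv, -⟩ := hex
  let α : E.KK v := ⟨φ, hφv⟩
  have hα : α ≠ 0 := fun h => hφ (congrArg Subtype.val h)
  let ρ : Multiplicative F →* SpecialLinearGroup (Fin n) F :=
    { toFun := fun c => E.tv v (Multiplicative.toAdd c • α)
      map_one' := by rw [toAdd_one, zero_smul, E.tv_zero]
      map_mul' := fun c d => by rw [toAdd_mul, add_smul, E.tv_add] }
  obtain ⟨k, hk⟩ := hθ.mult_hom (E := Multiplicative F) (sol_of_comm mul_comm) ρ 1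
  have h1 : ∑ e : Multiplicative F, θ (ρ e) * ((((1 : Multiplicative F →* ℂˣ) e)⁻¹ : ℂˣ) : ℂ) =
      θ 1 + ((Nat.card F - 1 : ℝ) : ℂ) * f := by
    have h2 : ∀ e : Multiplicative F, θ (ρ e) *
        ((((1 : Multiplicative F →* ℂˣ) e)⁻¹ : ℂˣ) : ℂ) =
        (if e = 1 then θ 1 - f else 0) + f := by
      intro e
      rw [MonoidHom.one_apply, inv_one, Units.val_one, mul_one]
      by_cases he : e = 1
      · rw [he, map_one, if_pos rfl]
        ring
      · rw [if_neg he, zero_add]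
        apply hf
        apply E.tv_isTv hv
        intro h
        rcases smul_eq_zero.1 h with h3 | h3
        · exact he h3
        · exact hα h3
    rw [Finset.sum_congr rfl fun e _ => h2 e, Finset.sum_add_distrib,
      Finset.sum_ite_eq' Finset.univ (1 : Multiplicative F) (fun _ => θ 1 - f),
      if_pos (Finset.mem_univ _), Finset.sum_const, nsmul_eq_mul, Finset.card_univ]
    have h3 : Fintype.card (Multiplicative F) = Nat.card F := by
      rw [Nat.card_eq_fintype_card]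
      exact Fintype.card_congr Multiplicative.toAdd
    rw [h3]
    push_cast
    ring
  rw [h1] at hk
  have h2 := congrArg Complex.re hk
  have h3 : (θ 1 + ((Nat.card F - 1 : ℝ) : ℂ) * f).re = (θ 1).re + (Nat.card F - 1) * f := by
    rw [Complex.add_re, ← Complex.ofReal_mul, Complex.ofReal_re]
  have h4 : ((k : ℂ) * (Nat.card (Multiplicative F) : ℂ)).re =
      (k : ℝ) * (Nat.card (Multiplicative F) : ℝ) := by
    norm_cast
  rw [h3, h4] at h2
  rw [h2]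
  positivity

/-- the basic estimate for all split non-scalar elements -/
theorem split_est (hD : SD) (hU : SU) (hH : SH) (F : Type) [Field F] [Finite F] [CharP F 2]
    (n : ℕ) (θ : SpecialLinearGroup (Fin n) F → ℂ) (hθ : IsSolHeilbronn θ) :
    ∃ f : ℝ, 0 ≤ (θ 1).re + (Nat.card F - 1) * f ∧ f ≤ (θ 1).re ∧
      ∀ g, (∃ a : ℕ, g ^ (2 ^ a * (Nat.card F - 1)) = 1) → ¬ IsSc g →
        ‖θ g - (f : ℂ)‖ ≤ 14 * n * (((θ 1).re - f) / Nat.card F) := by
  have hS : Finite (SpecialLinearGroup (Fin n) F) := Subtype.finite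
  have key : ∃ f : ℝ, 0 ≤ (θ 1).re + (Nat.card F - 1) * f ∧ f ≤ (θ 1).re ∧
      ∀ g : SpecialLinearGroup (Fin n) F, IsTv g → θ g = (f : ℂ) := by
    by_cases h : ∃ g : SpecialLinearGroup (Fin n) F, IsTv g
    · obtain ⟨g₀, hg₀⟩ := h
      have h1 : ∀ g : SpecialLinearGroup (Fin n) F, IsTv g → θ g = ((θ g₀).re : ℂ) := by
        intro g hg
        obtain ⟨h, rfl⟩ := hD F n g₀ g hg₀ hg
        rw [hθ.conj]
        exact real_of_inv hθ (isTv_sq hg₀)
      exact ⟨(θ g₀).re, root_nonneg hθ _ h1 ⟨g₀, hg₀⟩,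
        (Complex.re_le_norm _).trans (hθ.norm_le g₀), h1⟩
    · obtain ⟨r, hr⟩ := hθ.exists_deg
      refine ⟨0, ?_, ?_, fun g hg => absurd ⟨g, hg⟩ h⟩
      · rw [hr, mul_zero, add_zero, Complex.natCast_re]
        exact Nat.cast_nonneg r
      · rw [hr, Complex.natCast_re]
        exact Nat.cast_nonneg r
  obtain ⟨f, hf0, hfr, hf⟩ := key
  refine ⟨f, hf0, hfr, fun g hg hns => ?_⟩
  obtain ⟨a, ha⟩ := hg
  obtain ⟨h, hh⟩ := hH F n g a ha
  have h1 := hU F n θ hθ f hf (h * g * h⁻¹) hh ?_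
  · rwa [hθ.conj] at h1
  · rintro ⟨c, hc⟩
    apply hns
    refine ⟨c, ?_⟩
    have h2 : g = h⁻¹ * (h * g * h⁻¹) * h := by group
    have h3 : (g : Matrix (Fin n) (Fin n) F) =
        ((h⁻¹ : SpecialLinearGroup (Fin n) F) : Matrix (Fin n) (Fin n) F) *
          ((h * g * h⁻¹ : SpecialLinearGroup (Fin n) F) : Matrix (Fin n) (Fin n) F) *
          (h : Matrix (Fin n) (Fin n) F) := by
      conv_lhs => rw [h2]
      rfl
    rw [h3, hc, Matrix.mul_smul, Matrix.smul_mul, mul_one]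
    have h4 : ((h⁻¹ : SpecialLinearGroup (Fin n) F) : Matrix (Fin n) (Fin n) F) *
        (h : Matrix (Fin n) (Fin n) F) = ((h⁻¹ * h : SpecialLinearGroup (Fin n) F) :
          Matrix (Fin n) (Fin n) F) := rfl
    rw [h4, inv_mul_cancel]
    rfl

theorem hB : SB := B.t_B A.t_A
theorem hE : SE := E.t_E t_C
theorem hG : SG := G.t_G hB hE
theorem hT : ST := T.t_T hB Pool.Agent.Y185.SL.t_D hG
theorem hU : SU := U.t_U hE hG hT

/-- the basic estimate -/
theorem sest' (F : Type) [Field F] [Finite F] [CharP F 2]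
    (n : ℕ) (θ : SpecialLinearGroup (Fin n) F → ℂ) (hθ : IsSolHeilbronn θ) :
    ∃ f : ℝ, 0 ≤ (θ 1).re + (Nat.card F - 1) * f ∧ f ≤ (θ 1).re ∧
      ∀ g, (∃ a : ℕ, g ^ (2 ^ a * (Nat.card F - 1)) = 1) → ¬ IsSc g →
        ‖θ g - (f : ℂ)‖ ≤ 14 * n * (((θ 1).re - f) / Nat.card F) :=
  split_est Pool.Agent.Y185.SL.t_D hU Pool.Agent.Y813.SL.t_H F n θ hθ

/-- the basic estimate -/
theorem sest (F : Type) [Field F] [Finite F] [CharP F 2]
    (n : ℕ) (θ : SpecialLinearGroup (Fin n) F → ℂ) (hθ : IsSolHeilbronn θ) :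
    ∃ f : ℝ, 0 ≤ (θ 1).re + (Nat.card F - 1) * f ∧
      ∀ g, (∃ a : ℕ, g ^ (2 ^ a * (Nat.card F - 1)) = 1) → ¬ IsSc g →
        ‖θ g - (f : ℂ)‖ ≤ 14 * n * (((θ 1).re - f) / Nat.card F) := by
  obtain ⟨f, h1, -, h2⟩ := sest' F n θ hθ
  exact ⟨f, h1, h2⟩

/-- nonnegativity of the multiplicities -/
theorem smult_nonneg (F : Type) [Field F]
    [Finite F] [CharP F 2] (n : ℕ) (θ : SpecialLinearGroup (Fin n) F → ℂ) (hθ : IsSolHeilbronn θ)
    (G : Type) [Group G] [Fintype G] (ι : G →* SpecialLinearGroup (Fin n) F)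
    (hι : Function.Injective ι) (hG : ∀ g : G, ∃ a : ℕ, g ^ (2 ^ a * (Nat.card F - 1)) = 1)
    (hq : n = 2 ∨ 42 * n * Nat.card G ≤ Nat.card F) {χ : G → ℂ} (hχ : χ ∈ Irr G) (m : ℤ)
    (hm : ∑ g : G, θ (ι g) * χ g⁻¹ = (m : ℂ) * Nat.card G) : 0 ≤ m := by
  rw [Nat.card_eq_fintype_card] at hm hq
  rcases hq with rfl | hq
  · exact P.t_P A.t_A F θ hθ G ι hι hG χ hχ m hm
  · exact N.t_N F n (sest F n) θ hθ G ι hι hG hq χ hχ m hm

/-- **Main theorem.** -/
theorem smain (F : Type) [Field F]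
    [Finite F] [CharP F 2] (n : ℕ) (Γ : Type) [Group Γ] [Finite Γ]
    (j : SpecialLinearGroup (Fin n) F →* Γ)
    (G : Type) [Group G] [Finite G] (ι : G →* SpecialLinearGroup (Fin n) F)
    (hι : Function.Injective ι) (hG : ∀ g : G, ∃ a : ℕ, g ^ (2 ^ a * (Nat.card F - 1)) = 1)
    (hq : n = 2 ∨ 42 * n * Nat.card G ≤ Nat.card F) (χ : G → ℂ) (hχ : χ ∈ Irr G) :
    ∃ (k l : ℕ) (H : Fin l → Subgroup Γ) (lam : ∀ i, H i →* ℂˣ), 0 < k ∧
      (∀ i, Group.IsSolvable (H i)) ∧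
      (∀ σ, (k : ℂ) * ind (j.comp ι) χ σ =
        ∑ i, ind (H i).subtype (fun h => ((lam i h : ℂˣ) : ℂ)) σ) ∧
      (∀ (s₀ : ℂ) (A : ArtinData Γ s₀) (M : (G → ℂ) → ℂ → ℂ), Induced (j.comp ι) A M →
        (fun s => M χ s ^ k) =ᶠ[𝓝[≠] s₀] (fun s => ∏ i, A.Lin (H i) (lam i) s) ∧
          0 ≤ meromorphicOrderAt (M χ) s₀) ∧
      (∀ (s₀ : ℂ) (A : TwistData Γ s₀) (M : (G → ℂ) → ℂ → ℂ), InducedT (j.comp ι) A M →
        (fun s => M χ s ^ k) =ᶠ[𝓝[≠] s₀] (fun s => ∏ i, A.Lin (H i) (lam i) s) ∧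
          0 ≤ meromorphicOrderAt (M χ) s₀) := by
  classical
  have : Fintype G := Fintype.ofFinite G
  have hSL : Finite (SpecialLinearGroup (Fin n) F) := Subtype.finite
  choose! v hv using fun (χ : G → ℂ) (hχ : χ ∈ Irr G) (ψ : Γ → ℂ)
    (hψ : ψ ∈ Irr Γ) => exists_mult_hom hψ (j.comp ι) hχ
  have hpair : ∀ n : (Γ → ℂ) → ℤ,
      ∑ g : G, theta n (j (ι g)) * χ g⁻¹ =
        ((∑ ψ ∈ irrF Γ, (v χ ψ : ℤ) * n ψ : ℤ) : ℂ) * Nat.card G := fun n =>
    theta_pair_hom n (j.comp ι) χ (v χ) (hv χ hχ)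
  obtain ⟨k, l, H, lam, w, hk, hsol, hw, hkv⟩ := cone_of_sol (Γ := Γ) (v χ) (by
    intro n' hn
    exact smult_nonneg F _ (fun σ => theta n' (j σ)) (hn.comp j) G ι hι hG hq hχ _
      (hpair n'))
  refine ⟨k, l, H, lam, hk, hsol, ind_identity (j.comp ι) χ (v χ) (hv χ hχ) H lam w hw hkv, ?_, ?_⟩
  · intro s₀ A M hM
    refine ⟨L_identity A (v χ) (hM χ hχ (v χ) (hv χ hχ)) H lam w hw hkv, ?_⟩
    have h1 := smult_nonneg F _ (fun σ => theta A.ord (j σ)) (A.isHeilbronn.toSol.comp j) G ι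
      hι hG hq hχ _ (hpair A.ord)
    rw [order_M A (v χ) (hM χ hχ (v χ) (hv χ hχ))]
    exact_mod_cast h1
  · intro s₀ A M hM
    refine ⟨A.L_identity (v χ) (hM χ hχ (v χ) (hv χ hχ)) H lam w hw hkv, ?_⟩
    have h1 := smult_nonneg F _ (fun σ => theta A.ord (j σ)) (A.isSol.comp j) G ι
      hι hG hq hχ _ (hpair A.ord)
    rw [A.order_prod (v χ) (hM χ hχ (v χ) (hv χ hχ))]
    exact_mod_cast h1

end Pool.Agent.Y788.SLS
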