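import Pool.Agent.Y788.SLS.Stm
import Pool.Agent.Y275.SL.A

/-!
# Heilbronn functions on `SL_2(F)`, `F` of characteristic two
-/

set_option autoImplicit false

namespace Pool.Agent.Y788.SLS.A

open Matrix Pool.Agent.H302R2 Pool.Agent.H302R3 Pool.Agent.Y788.SL

theorem sol_semi {N G : Type} [Group N] [Group G] [Group.IsSolvable N] [Group.IsSolvable G]
    (φ : G →* MulAut N) : Group.IsSolvable (N ⋊[φ] G) := by
  refine Group.isSolvable_of_ker_le_range (SemidirectProduct.inl : N →* N ⋊[φ] G)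
    (SemidirectProduct.rightHom : N ⋊[φ] G →* G) ?_
  intro x hx
  rw [MonoidHom.mem_ker] at hx
  refine ⟨x.left, ?_⟩
  ext
  · rfl
  · exact hx.symm

/-- multiplicities along a homomorphism from a semidirect product -/
theorem mult_semi {S : Type} [Group S] [Finite S] {θ : S → ℂ} (hθ : IsSolHeilbronn θ)
    {N G : Type} [Group N] [Fintype N] [Group G] [Fintype G] [Group.IsSolvable N] [Group.IsSolvable G] (φ : G →* MulAut N)
    (fn : N →* S) (fg : G →* S) (h : ∀ g x, fn (φ g x) = fg g * fn x * (fg g)⁻¹)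
    (χ : G →* ℂˣ) : ∃ n : ℕ, ∑ x : N, ∑ g : G, θ (fn x * fg g) * (((χ g)⁻¹ : ℂˣ) : ℂ) =
      (n : ℂ) * ((Nat.card N : ℂ) * (Nat.card G : ℂ)) := by
  classical
  let _ : Fintype (N ⋊[φ] G) := Fintype.ofEquiv _ SemidirectProduct.equivProd.symm
  have hc : ∀ g, fn.comp (φ g).toMonoidHom = (MulAut.conj (fg g)).toMonoidHom.comp fn := by
    intro g
    ext x
    exact h g x
  obtain ⟨n, hn⟩ := hθ.mult_hom (sol_semi φ) (SemidirectProduct.lift fn fg hc)
    (χ.comp SemidirectProduct.rightHom)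
  refine ⟨n, ?_⟩
  rw [SemidirectProduct.card] at hn
  push_cast at hn
  rw [← hn, ← Fintype.sum_prod_type', ← (SemidirectProduct.equivProd (φ := φ)).sum_comp]
  refine Finset.sum_congr rfl fun e _ => ?_
  rw [← Units.val_inv_eq_inv_val]
  rfl

/-- the homomorphism from `ℤˣ` given by an involution -/
def invHom {S : Type} [Group S] (u : S) (hu : u * u = 1) : ℤˣ →* S where
  toFun s := if s = 1 then 1 else u
  map_one' := if_pos rfl
  map_mul' s t := by
    rcases Int.units_eq_one_or s with rfl | rfl <;>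
      rcases Int.units_eq_one_or t with rfl | rfl <;> simp [hu]

theorem invHom_one {S : Type} [Group S] (u : S) (hu : u * u = 1) : invHom u hu 1 = 1 :=
  map_one _

theorem invHom_neg {S : Type} [Group S] (u : S) (hu : u * u = 1) : invHom u hu (-1) = u := by
  change (if (-1 : ℤˣ) = 1 then 1 else u) = u
  rw [if_neg (by decide)]

theorem sum_units {f : ℤˣ → ℂ} : ∑ s : ℤˣ, f s = f 1 + f (-1) := by
  rw [UnitsInt.univ, Finset.sum_pair (by decide)]

/-- values at involutions are real -/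
theorem real_invol {S : Type} [Group S] [Finite S] {θ : S → ℂ} (hθ : IsSolHeilbronn θ) (u : S)
    (hu : u * u = 1) : θ u = ((θ u).re : ℂ) := by
  obtain ⟨n, hn⟩ := hθ.mult_hom inferInstance (invHom u hu) 1
  obtain ⟨r, hr⟩ := hθ.exists_deg
  rw [sum_units, invHom_one, invHom_neg] at hn
  simp only [MonoidHom.one_apply, inv_one, Units.val_one, mul_one] at hn
  have h1 : θ u = ((n * Nat.card ℤˣ - r : ℝ) : ℂ) := by
    push_cast
    rw [← hn, hr]
    ring
  rw [h1, Complex.ofReal_re]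

variable {F : Type} [Field F]

theorem ux_mul (x y : F) : ux x * ux y = ux (x + y) := by
  apply Subtype.ext
  change !![1, x; 0, 1] * !![1, y; 0, 1] = !![1, x + y; 0, 1]
  rw [Matrix.mul_fin_two]
  simp [add_comm]

theorem tc_mul (c d : Fˣ) : tc c * tc d = tc (c * d) := by
  apply Subtype.ext
  change !![(c : F), 0; 0, ((c⁻¹ : Fˣ) : F)] * !![(d : F), 0; 0, ((d⁻¹ : Fˣ) : F)] =
    !![((c * d : Fˣ) : F), 0; 0, (((c * d)⁻¹ : Fˣ) : F)]
  rw [Matrix.mul_fin_two]
  simp [mul_comm]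

theorem ux_zero : ux (0 : F) = 1 := by
  apply Subtype.ext
  ext i j
  fin_cases i <;> fin_cases j <;> simp [ux]

theorem tc_one : tc (1 : Fˣ) = 1 := by
  apply Subtype.ext
  ext i j
  fin_cases i <;> fin_cases j <;> simp [tc]

/-- the unipotent subgroup -/
def uxHom : Multiplicative F →* SpecialLinearGroup (Fin 2) F where
  toFun x := ux x.toAdd
  map_one' := ux_zero
  map_mul' _ _ := (ux_mul _ _).symm

/-- the torus -/
def tcHom : Fˣ →* SpecialLinearGroup (Fin 2) F where
  toFun c := tc c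
  map_one' := tc_one
  map_mul' c d := (tc_mul c d).symm

theorem tc_inv (c : Fˣ) : (tc c)⁻¹ = tc c⁻¹ := (map_inv (tcHom (F := F)) c).symm

theorem ux_inv (x : F) : (ux x)⁻¹ = ux (-x) := by
  apply inv_eq_of_mul_eq_one_right
  rw [ux_mul, add_neg_cancel, ux_zero]

theorem tc_ux (c : Fˣ) (x : F) : tc c * ux x * (tc c)⁻¹ = ux ((c : F) ^ 2 * x) := by
  rw [mul_inv_eq_iff_eq_mul]
  apply Subtype.ext
  change !![(c : F), 0; 0, ((c⁻¹ : Fˣ) : F)] * !![1, x; 0, 1] =
    !![1, (c : F) ^ 2 * x; 0, 1] * !![(c : F), 0; 0, ((c⁻¹ : Fˣ) : F)]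
  rw [Matrix.mul_fin_two, Matrix.mul_fin_two]
  have hc : (c : F) * ((c⁻¹ : Fˣ) : F) = 1 := Units.mul_inv c
  have h1 : (c : F) ^ 2 * x * ((c⁻¹ : Fˣ) : F) = (c : F) * x := by
    linear_combination (c : F) * x * hc
  simp only [mul_one, mul_zero, add_zero, zero_mul, one_mul, zero_add, h1]

/-- the action of the torus on the unipotent subgroup -/
def actB : Fˣ →* MulAut (Multiplicative F) where
  toFun c :=
    { toFun := fun x => Multiplicative.ofAdd ((c : F) ^ 2 * x.toAdd)
      invFun := fun x => Multiplicative.ofAdd (((c⁻¹ : Fˣ) : F) ^ 2 * x.toAdd)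
      left_inv := fun x => by
        apply Multiplicative.toAdd.injective
        simp
      right_inv := fun x => by
        apply Multiplicative.toAdd.injective
        simp
      map_mul' := fun x y => by
        apply Multiplicative.toAdd.injective
        simp [mul_add] }
  map_one' := by
    ext x
    simp
  map_mul' c d := by
    ext x
    apply Multiplicative.toAdd.injective
    simp [mul_pow, mul_assoc]

/-- inversion on an abelian group -/
def actW : ℤˣ →* MulAut Fˣ where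
  toFun s :=
    { toFun := fun c => c ^ (s : ℤ)
      invFun := fun c => c ^ (s : ℤ)
      left_inv := fun c => by
        rcases Int.units_eq_one_or s with rfl | rfl <;> simp
      right_inv := fun c => by
        rcases Int.units_eq_one_or s with rfl | rfl <;> simp
      map_mul' := fun x y => mul_zpow x y _ }
  map_one' := by
    ext c
    simp
  map_mul' s t := by
    apply MulEquiv.ext
    intro c
    change c ^ ((s * t : ℤˣ) : ℤ) = (c ^ (t : ℤ)) ^ (s : ℤ)
    rw [← _root_.zpow_mul, Units.val_mul, mul_comm]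

variable [CharP F 2]

/-- the Weyl element -/
def ww (F : Type) [Field F] [CharP F 2] : SpecialLinearGroup (Fin 2) F :=
  ⟨!![0, 1; 1, 0], by
    rw [Matrix.det_fin_two]
    simp [CharTwo.neg_eq]⟩

theorem ww_sq : ww F * ww F = 1 := by
  apply Subtype.ext
  change !![(0 : F), 1; 1, 0] * !![0, 1; 1, 0] = 1
  rw [Matrix.mul_fin_two, Matrix.one_fin_two]
  simp

theorem ww_tc (c : Fˣ) : ww F * tc c * (ww F)⁻¹ = tc c⁻¹ := by
  rw [mul_inv_eq_iff_eq_mul]
  apply Subtype.ext
  change !![(0 : F), 1; 1, 0] * !![(c : F), 0; 0, ((c⁻¹ : Fˣ) : F)] =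
    !![((c⁻¹ : Fˣ) : F), 0; 0, (((c⁻¹)⁻¹ : Fˣ) : F)] * !![(0 : F), 1; 1, 0]
  rw [Matrix.mul_fin_two, Matrix.mul_fin_two]
  simp

/-- the lower unipotent element -/
def pp (F : Type) [Field F] : SpecialLinearGroup (Fin 2) F :=
  ⟨!![1, 0; 1, 1], by rw [Matrix.det_fin_two]; simp⟩

theorem ww_conj : ww F = pp F * ux 1 * (pp F)⁻¹ := by
  rw [eq_mul_inv_iff_mul_eq]
  apply Subtype.ext
  have h2 : (1 : F) + 1 = 0 := CharTwo.add_self_eq_zero 1
  change !![(0 : F), 1; 1, 0] * !![1, 0; 1, 1] = !![1, 0; 1, 1] * !![1, 1; 0, 1]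
  rw [Matrix.mul_fin_two, Matrix.mul_fin_two]
  simp [h2]

theorem exists_sqrt [Finite F] (c : Fˣ) : ∃ s : Fˣ, s * s = c := by
  have h : ringChar F = 2 := ringChar.eq F 2
  obtain ⟨s, hs⟩ := FiniteField.isSquare_of_char_two h (c : F)
  have hs0 : s ≠ 0 := by
    rintro rfl
    exact c.ne_zero (by rw [hs, mul_zero])
  exact ⟨Units.mk0 s hs0, Units.ext hs.symm⟩

section values

variable [Finite F] {θ : SpecialLinearGroup (Fin 2) F → ℂ}

theorem val_ux (hθ : IsSolHeilbronn θ) (x : F) (hx : x ≠ 0) : θ (ux x) = θ (ux 1) := by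
  obtain ⟨s, hs⟩ := exists_sqrt (Units.mk0 x hx)
  have h1 : ux x = tc s * ux 1 * (tc s)⁻¹ := by
    rw [tc_ux, mul_one]
    congr 1
    have := congrArg Units.val hs
    simp only [Units.val_mul, Units.val_mk0] at this
    rw [← this, sq]
  rw [h1, hθ.conj]

omit [Finite F] in
theorem val_tcux (hθ : IsSolHeilbronn θ) (x : F) (c : Fˣ) (hc : c ≠ 1) :
    θ (ux x * tc c) = θ (tc c) := by
  have h1 : (1 : F) - (c : F) ^ 2 ≠ 0 := by
    intro h
    apply hc
    have h2 : ((c : F) - 1) ^ 2 = 0 := by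
      rw [sub_sq, one_pow, mul_one, show (2 : F) = 0 from CharTwo.two_eq_zero, zero_mul, sub_zero]
      have : (c : F) ^ 2 = 1 := (sub_eq_zero.mp h).symm
      rw [this]
      exact CharTwo.add_self_eq_zero 1
    have h3 := pow_eq_zero_iff (two_ne_zero) |>.mp h2
    exact Units.ext (sub_eq_zero.mp h3)
  have h2 : ux x * tc c = ux (x / (1 - (c : F) ^ 2)) * tc c * (ux (x / (1 - (c : F) ^ 2)))⁻¹ := by
    rw [ux_inv, mul_assoc (ux (x / (1 - (c : F) ^ 2)))]
    have h3 := tc_ux c (-(x / (1 - (c : F) ^ 2)))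
    rw [mul_inv_eq_iff_eq_mul] at h3
    rw [h3, ← mul_assoc, ux_mul]
    congr 2
    field_simp
    ring
  rw [h2, hθ.conj]

theorem val_tw (hθ : IsSolHeilbronn θ) (c : Fˣ) : θ (tc c * ww F) = θ (ux 1) := by
  obtain ⟨s, hs⟩ := exists_sqrt c
  have h1 : tc c * ww F = tc s * ww F * (tc s)⁻¹ := by
    have h2 := ww_tc s⁻¹
    rw [mul_inv_eq_iff_eq_mul, inv_inv] at h2
    rw [tc_inv, mul_assoc, h2, ← mul_assoc, tc_mul, hs]
  rw [h1, hθ.conj, ww_conj, hθ.conj]

end values

theorem t_A : SA := by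
  classical
  intro F _ _ _ θ hθ
  let _ : Fintype F := Fintype.ofFinite F
  let _ : Fintype Fˣ := Fintype.ofFinite _
  let _ : Fintype (Additive Fˣ) := Fintype.ofFinite _
  let _ : Fintype (Multiplicative F) := Fintype.ofFinite _
  obtain ⟨r, hr⟩ := hθ.exists_deg
  set q : ℕ := Nat.card F with hq
  have hqpos : 0 < q := Nat.card_pos
  have hq1 : 1 ≤ q := hqpos
  have hqR : (0 : ℝ) < q := by exact_mod_cast hqpos
  have hqC : (q : ℂ) ≠ 0 := by exact_mod_cast hqpos.ne'
  have hcardU : Nat.card Fˣ = q - 1 := Nat.card_units F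
  have hcardU' : (Nat.card Fˣ : ℂ) = (q : ℂ) - 1 := by
    rw [hcardU, Nat.cast_sub hq1, Nat.cast_one]
  have hUC : (Nat.card Fˣ : ℂ) ≠ 0 := by exact_mod_cast Nat.card_pos.ne'
  have hUR : (0 : ℝ) < (Nat.card Fˣ : ℝ) := by exact_mod_cast Nat.card_pos
  have huu : ux (1 : F) * ux 1 = 1 := by
    rw [ux_mul, CharTwo.add_self_eq_zero, ux_zero]
  set f : ℝ := (θ (ux 1)).re with hf
  have hfC : θ (ux 1) = (f : ℂ) := real_invol hθ _ huu
  have hfr : f ≤ r := by
    have h1 := hθ.norm_le (ux 1)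
    rw [hr, Complex.natCast_re] at h1
    exact (Complex.re_le_norm _).trans h1
  set N : ℝ := (r - f) / q with hN
  have hNq : (r : ℝ) = f + q * N := by
    rw [hN]; field_simp; ring
  have hN0 : 0 ≤ N := div_nonneg (sub_nonneg.mpr hfr) hqR.le
  -- the characters
  let μ : AddChar (Additive Fˣ) ℂ → (Fˣ →* ℂˣ) := fun ψ => ψ.toMonoidHom.toHomUnits
  have hμ : ∀ (ψ : AddChar (Additive Fˣ) ℂ) (e : Fˣ),
      ((μ ψ e : ℂˣ) : ℂ) = ψ (Additive.ofMul e) := fun ψ e => rfl
  -- multiplicities on the torus and on the Borel subgroup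
  have ht := fun ψ : AddChar (Additive Fˣ) ℂ => hθ.mult_hom inferInstance (tcHom (F := F)) (μ ψ)
  choose t ht using ht
  have hb := fun ψ : AddChar (Additive Fˣ) ℂ => mult_semi hθ (actB (F := F)) uxHom tcHom
    (fun g x => (tc_ux g x.toAdd).symm) (μ ψ)
  choose b hb using hb
  have hrel : ∀ ψ, (b ψ : ℝ) = t ψ - N := by
    intro ψ
    have h1 := ht ψ
    have h2 := hb ψ
    have hone : (((μ ψ 1)⁻¹ : ℂˣ) : ℂ) = 1 := by rw [map_one, inv_one, Units.val_one]
    -- the sum over the torus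
    rw [← Finset.add_sum_erase _ _ (Finset.mem_univ (1 : Fˣ)), hone, mul_one, map_one, hr] at h1
    -- the double sum
    rw [Finset.sum_comm, ← Finset.add_sum_erase _ _ (Finset.mem_univ (1 : Fˣ))] at h2
    have h3 : ∑ x : Multiplicative F, θ (uxHom x * tcHom 1) * (((μ ψ 1)⁻¹ : ℂˣ) : ℂ) =
        (r : ℂ) + ((q : ℂ) - 1) * f := by
      rw [← Finset.add_sum_erase _ _ (Finset.mem_univ (1 : Multiplicative F)), hone, map_one,
        map_one, mul_one, mul_one, hr]
      congr 1
      rw [Finset.sum_congr rfl (g := fun _ => (f : ℂ))]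
      · rw [Finset.sum_const, Finset.card_erase_of_mem (Finset.mem_univ _), Finset.card_univ,
          nsmul_eq_mul]
        have h4 : Fintype.card (Multiplicative F) = q := by
          rw [hq, Nat.card_eq_fintype_card, Fintype.card_congr Multiplicative.toAdd]
        rw [h4, Nat.cast_sub hq1, Nat.cast_one]
      · intro x hx
        have hx1 : x.toAdd ≠ 0 := fun h => (Finset.ne_of_mem_erase hx)
          (Multiplicative.toAdd.injective h)
        rw [mul_one, mul_one]
        change θ (ux x.toAdd) = _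
        rw [val_ux hθ _ hx1, hfC]
    have h4 : ∑ c ∈ Finset.univ.erase (1 : Fˣ), ∑ x : Multiplicative F,
        θ (uxHom x * tcHom c) * (((μ ψ c)⁻¹ : ℂˣ) : ℂ) =
        (q : ℂ) * ∑ c ∈ Finset.univ.erase (1 : Fˣ), θ (tcHom c) * (((μ ψ c)⁻¹ : ℂˣ) : ℂ) := by
      rw [Finset.mul_sum]
      refine Finset.sum_congr rfl fun c hc => ?_
      have hc1 : c ≠ 1 := Finset.ne_of_mem_erase hc
      rw [Finset.sum_congr rfl (g := fun _ => θ (tcHom c) * (((μ ψ c)⁻¹ : ℂˣ) : ℂ))]
      · rw [Finset.sum_const, Finset.card_univ, nsmul_eq_mul]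
        have h4 : Fintype.card (Multiplicative F) = q := by
          rw [hq, Nat.card_eq_fintype_card, Fintype.card_congr Multiplicative.toAdd]
        rw [h4]
      · intro x _
        congr 1
        exact val_tcux hθ x.toAdd c hc1
    rw [h3, h4] at h2
    have h5 : (Nat.card (Multiplicative F) : ℂ) = q := by
      rw [Nat.card_congr Multiplicative.toAdd]
    rw [h5] at h2
    have h6 : ∑ c ∈ Finset.univ.erase (1 : Fˣ), θ (tcHom c) * (((μ ψ c)⁻¹ : ℂˣ) : ℂ) =
        (t ψ : ℂ) * (Nat.card Fˣ : ℂ) - r := by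
      rw [← h1]; ring
    rw [h6, hcardU'] at h2
    have h7 : ((q : ℂ) * ((q : ℂ) - 1)) * ((b ψ : ℂ) - (t ψ - N)) = 0 := by
      have h8 : (r : ℂ) = f + q * N := by exact_mod_cast hNq
      linear_combination -h2 - ((q : ℂ) - 1) * h8
    rcases mul_eq_zero.mp h7 with h8 | h8
    · exfalso
      rcases mul_eq_zero.mp h8 with h9 | h9
      · exact hqC h9
      · rw [← hcardU'] at h9
        exact hUC h9
    · have h9 := sub_eq_zero.mp h8
      exact_mod_cast h9
  -- the normalizer of the torus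
  have hW : f ≤ t 0 := by
    obtain ⟨n, hn⟩ := mult_semi hθ (actW (F := F)) tcHom (invHom (ww F) ww_sq) (by
      intro s c
      rcases Int.units_eq_one_or s with rfl | rfl
      · rw [invHom_one, map_one, one_mul, inv_one, mul_one]
        rfl
      · rw [invHom_neg]
        have : (actW (F := F)) (-1) c = c⁻¹ := by
          change c ^ (((-1 : ℤˣ) : ℤˣ) : ℤ) = c⁻¹
          simp
        rw [this]
        exact (ww_tc c).symm) signToC
    have h1 : ∀ c : Fˣ, ∑ s : ℤˣ, θ (tcHom c * invHom (ww F) ww_sq s) *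
        (((signToC s)⁻¹ : ℂˣ) : ℂ) = θ (tcHom c) - f := by
      intro c
      rw [sum_units, invHom_one, invHom_neg, mul_one, map_one, inv_one, Units.val_one, mul_one]
      have h2 : (((signToC (-1))⁻¹ : ℂˣ) : ℂ) = -1 := by
        simp [signToC]
      rw [h2]
      have h3 : θ (tcHom c * ww F) = f := by
        rw [← hfC]
        exact val_tw hθ c
      rw [h3]
      ring
    rw [Finset.sum_congr rfl (fun c _ => h1 c), Finset.sum_sub_distrib, Finset.sum_const,
      Finset.card_univ, nsmul_eq_mul, ← Nat.card_eq_fintype_card] at hn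
    have h2 := ht 0
    have h3 : ∑ c : Fˣ, θ (tcHom c) * (((μ 0 c)⁻¹ : ℂˣ) : ℂ) = ∑ c : Fˣ, θ (tcHom c) := by
      refine Finset.sum_congr rfl fun c _ => ?_
      rw [Units.val_inv_eq_inv_val, hμ]
      simp
    rw [h3] at h2
    rw [h2] at hn
    have h4 : (Nat.card Fˣ : ℂ) * ((t 0 : ℂ) - f - n * Nat.card ℤˣ) = 0 := by
      linear_combination hn
    have h5 : (t 0 : ℝ) - f - n * Nat.card ℤˣ = 0 := by
      have := (mul_eq_zero.mp h4).resolve_left hUC
      exact_mod_cast this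
    have h6 : (0 : ℝ) ≤ n * Nat.card ℤˣ := by positivity
    linarith
  -- Fourier inversion on the torus
  have hinv : ∀ c : Fˣ, θ (tc c) = ∑ ψ, (t ψ : ℂ) * ((μ ψ c : ℂˣ) : ℂ) := by
    intro e
    apply mul_left_cancel₀ hUC
    rw [Finset.mul_sum]
    have h1 : ∀ ψ : AddChar (Additive Fˣ) ℂ,
        (Nat.card Fˣ : ℂ) * ((t ψ : ℂ) * ((μ ψ e : ℂˣ) : ℂ))
        = ∑ x : Fˣ, θ (tc x) * ψ (Additive.ofMul (x⁻¹ * e)) := by
      intro ψ
      rw [mul_comm, mul_assoc, mul_comm, mul_assoc, mul_comm _ (t ψ : ℂ), ← ht ψ, Finset.mul_sum]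
      refine Finset.sum_congr rfl fun x _ => ?_
      simp only [Units.val_inv_eq_inv_val, hμ, ofMul_mul, ofMul_inv,
        AddChar.map_add_eq_mul, AddChar.map_neg_eq_inv]
      change _ * (θ (tc x) * _) = _
      ring
    rw [Finset.sum_congr rfl (fun ψ _ => h1 ψ), Finset.sum_comm]
    have h2 : ∀ x : Fˣ, ∑ ψ : AddChar (Additive Fˣ) ℂ, θ (tc x) * ψ (Additive.ofMul (x⁻¹ * e))
        = if x = e then (Nat.card Fˣ : ℂ) * θ (tc e) else 0 := by
      intro x
      rw [← Finset.mul_sum]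
      rw [AddChar.sum_apply_eq_ite]
      by_cases hx : x = e
      · subst hx
        have hc : Fintype.card (Additive Fˣ) = Nat.card Fˣ := by
          rw [Nat.card_eq_fintype_card]
          exact Fintype.card_congr Additive.toMul
        simp [mul_comm, hc]
      · have : Additive.ofMul (x⁻¹ * e) ≠ 0 := by
          intro h
          apply hx
          have : x⁻¹ * e = 1 := h
          exact (inv_mul_eq_one.mp this)
        rw [if_neg this, if_neg hx, mul_zero]
    rw [Finset.sum_congr rfl (fun x _ => h2 x)]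
    simp
  have hsumψ : ∀ c : Fˣ, c ≠ 1 → ∑ ψ, ((μ ψ c : ℂˣ) : ℂ) = 0 := by
    intro c hc
    have h1 : ∑ ψ : AddChar (Additive Fˣ) ℂ, ψ (Additive.ofMul c) = 0 := by
      rw [AddChar.sum_apply_eq_ite, if_neg]
      intro h
      exact hc h
    exact h1
  have hcardψ : (Fintype.card (AddChar (Additive Fˣ) ℂ) : ℝ) = q - 1 := by
    have h1 : Fintype.card (AddChar (Additive Fˣ) ℂ) = Fintype.card (Additive Fˣ) :=
      AddChar.card_eq
    have h2 : Fintype.card (Additive Fˣ) = Nat.card Fˣ := by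
      rw [Nat.card_eq_fintype_card]
      exact Fintype.card_congr Additive.toMul
    rw [h1, h2, hcardU, Nat.cast_sub hq1, Nat.cast_one]
  have hsumb : ∑ ψ, (b ψ : ℝ) = f + N := by
    have h1 : (r : ℂ) = ∑ ψ, (t ψ : ℂ) := by
      have := hinv 1
      rw [tc_one, hr] at this
      rw [this]
      refine Finset.sum_congr rfl fun ψ _ => ?_
      rw [map_one, Units.val_one, mul_one]
    have h2 : (r : ℝ) = ∑ ψ, (t ψ : ℝ) := by exact_mod_cast h1
    rw [Finset.sum_congr rfl (fun ψ _ => hrel ψ), Finset.sum_sub_distrib, ← h2, Finset.sum_const,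
      Finset.card_univ, nsmul_eq_mul, hcardψ, hNq]
    ring
  refine ⟨N, f, AddChar (Additive Fˣ) ℂ, inferInstance, μ, fun ψ => b ψ, hN0,
    fun ψ => Nat.cast_nonneg _, ?_, ?_, ?_, hsumb, ?_⟩
  · intro x hx
    rw [val_ux hθ x hx, hfC]
  · rw [hr, ← hNq]
    simp
  · intro c hc
    rw [hinv c]
    have h1 : ∀ ψ, (((b ψ : ℝ) : ℂ)) * ((μ ψ c : ℂˣ) : ℂ) =
        (t ψ : ℂ) * ((μ ψ c : ℂˣ) : ℂ) - (N : ℂ) * ((μ ψ c : ℂˣ) : ℂ) := by
      intro ψ
      rw [hrel ψ]
      push_cast
      ring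
    rw [Finset.sum_congr rfl (fun ψ _ => h1 ψ), Finset.sum_sub_distrib, ← Finset.mul_sum,
      hsumψ c hc, mul_zero, sub_zero]
  · have h1 : ∀ ψ : AddChar (Additive Fˣ) ℂ, (if μ ψ = 1 then 0 else (b ψ : ℝ)) =
        (b ψ : ℝ) - (if μ ψ = 1 then (b ψ : ℝ) else 0) := by
      intro ψ
      split_ifs <;> simp
    have h2 : (b 0 : ℝ) ≤ ∑ ψ : AddChar (Additive Fˣ) ℂ, (if μ ψ = 1 then (b ψ : ℝ) else 0) := by
      have h3 : μ 0 = 1 := by
        ext c
        rw [hμ]
        simp
      have h4 := Finset.single_le_sum (s := Finset.univ)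
        (f := fun ψ : AddChar (Additive Fˣ) ℂ => (if μ ψ = 1 then (b ψ : ℝ) else 0))
        (fun ψ _ => by
          split_ifs
          · exact Nat.cast_nonneg _
          · exact le_rfl) (Finset.mem_univ (0 : AddChar (Additive Fˣ) ℂ))
      simp only [h3, if_true] at h4
      exact h4
    have h5 : ∑ ψ : AddChar (Additive Fˣ) ℂ, (if μ ψ = 1 then 0 else (b ψ : ℝ)) ≤ 2 * N := by
      rw [Finset.sum_congr rfl (fun ψ _ => h1 ψ), Finset.sum_sub_distrib, hsumb]
      have h6 := hrel 0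
      linarith
    refine le_trans (le_of_eq ?_) h5
    refine Finset.sum_congr rfl fun ψ _ => ?_
    by_cases h6 : μ ψ = 1
    · rw [if_pos h6, if_pos h6]
    · rw [if_neg h6, if_neg h6]

end Pool.Agent.Y788.SLS.A
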