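import Pool.Agent.Y788.SLS.Stm
import Pool.Agent.Y786.FR.Free
import Pool.Agent.Y43.SL.K

set_option autoImplicit false

/-!
# Every finite group is a split subgroup of `SL_n(F)` without scalars
-/

namespace Pool.Agent.Y788.SLS

open Matrix Pool.Agent.Y786.FR Pool.Agent.Y788.SL Equiv

/-- A subgroup of `SL_n(F)` is split without scalars if all eigenvalues of its elements lie in `F`
(`F` has `q` elements and characteristic two: the order of every element divides `2 ^ a (q - 1)`)
and it contains no scalar matrix other than the identity. -/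
def SplitSub {F : Type} [Field F] {n : ℕ} (H : Subgroup (SpecialLinearGroup (Fin n) F)) : Prop :=
  (∀ g ∈ H, ∃ a : ℕ, g ^ (2 ^ a * (Nat.card F - 1)) = 1) ∧ ∀ g ∈ H, IsSc g → g = 1

/-- permutation matrices in characteristic two -/
def plin (F : Type) [Field F] [CharP F 2] (n : ℕ) : Perm (Fin n) →* SpecialLinearGroup (Fin n) F :=
  { toFun := fun σ => ⟨permMatrixHom σ, by
      have h2 : (2 : F) = 0 := CharTwo.two_eq_zero
      rw [permMatrixHom_apply, det_permutation]
      rcases Int.units_eq_one_or (Equiv.Perm.sign σ⁻¹) with h | h <;> rw [h]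
      · simp
      · push_cast
        linear_combination -h2⟩
    map_one' := by
      apply Subtype.ext
      show permMatrixHom 1 = 1
      rw [map_one]
    map_mul' := by
      intro g h
      apply Subtype.ext
      show permMatrixHom (g * h) = permMatrixHom g * permMatrixHom h
      rw [map_mul] }

lemma plin_coe (F : Type) [Field F] [CharP F 2] (n : ℕ) (σ : Perm (Fin n)) :
    ((plin F n σ : SpecialLinearGroup (Fin n) F) : Matrix (Fin n) (Fin n) F) = permMatrixHom σ :=
  rfl

lemma plin_sc (F : Type) [Field F] [CharP F 2] (n : ℕ) (σ : Perm (Fin n))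
    (h : IsSc (plin F n σ)) : σ = 1 := by
  obtain ⟨c, hc⟩ := h
  rw [← inv_eq_one]
  ext x : 1
  by_contra hne
  have h1 := congrFun (congrFun hc x) (σ⁻¹ x)
  rw [plin_coe, permMatrixHom_apply] at h1
  have h2 : (Equiv.Perm.permMatrix F σ⁻¹) x (σ⁻¹ x) = 1 := by
    rw [Equiv.Perm.permMatrix, PEquiv.toMatrix_apply]
    simp
  have h3 : (1 : Matrix (Fin n) (Fin n) F) x (σ⁻¹ x) = 0 :=
    Matrix.one_apply_ne (fun h => hne h.symm)
  have h4 : (c • (1 : Matrix (Fin n) (Fin n) F)) x (σ⁻¹ x) = 0 := by
    rw [Matrix.smul_apply, h3, smul_zero]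
  rw [h2] at h1
  exact one_ne_zero (h1.trans h4)

/-- one `SL_n(F)` for all groups of order at most `N` -/
theorem exists_emb (N : ℕ) (B : ℝ) :
    ∃ (n : ℕ) (F : Type) (_ : Field F) (_ : Finite F) (_ : CharP F 2), 0 < n ∧
      B * n ≤ Nat.card F ∧
      ∀ (G : Type) [Group G] [Finite G], Nat.card G ≤ N →
        ∃ ι : G →* SpecialLinearGroup (Fin n) F, Function.Injective ι ∧ SplitSub ι.range := by
  classical
  obtain ⟨t, ht⟩ := exists_nat_gt (max B 1)
  have htB : B < t := (le_max_left _ _).trans_lt ht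
  have ht1 : (1 : ℝ) < t := (le_max_right _ _).trans_lt ht
  have ht0 : 0 < t := by
    have : (0 : ℝ) < t := by linarith
    exact_mod_cast this
  have hf0 : 0 < N.factorial := N.factorial_pos
  obtain ⟨k, hk0, hk, a, ha⟩ := Pool.Agent.Y43.SL.card_k (N.factorial * t) (Nat.mul_pos hf0 ht0)
  have hcard : Nat.card (GaloisField 2 k) = 2 ^ k := GaloisField.card 2 k hk0
  have hfin : Finite (GaloisField 2 k) := by
    apply Nat.finite_of_card_ne_zero
    rw [hcard]
    positivity
  refine ⟨N.factorial, GaloisField 2 k, inferInstance, hfin, inferInstance, hf0, ?_, ?_⟩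
  · rw [hcard]
    have h1 : N.factorial * t ≤ 2 ^ k := by
      refine le_trans ?_ hk
      have h2 : 0 < N.factorial * t := Nat.mul_pos hf0 ht0
      nlinarith
    have h2 : (N.factorial : ℝ) * t ≤ ((2 ^ k : ℕ) : ℝ) := by exact_mod_cast h1
    have h3 : (0 : ℝ) < N.factorial := by exact_mod_cast hf0
    nlinarith
  · intro G _ _ hG
    obtain ⟨e, he⟩ := exists_freeHom G (m := N.factorial) (Nat.dvd_factorial Nat.card_pos hG)
    have hsc : ∀ g : G, IsSc (plin (GaloisField 2 k) N.factorial (e g)) → g = 1 := by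
      intro g hg
      exact (injective_iff_map_eq_one e).1 (he.inj hf0) g (plin_sc _ _ _ hg)
    refine ⟨(plin _ _).comp e, ?_, ?_, ?_⟩
    · rw [injective_iff_map_eq_one]
      intro g hg
      apply hsc
      refine ⟨1, ?_⟩
      rw [one_smul]
      exact congrArg Subtype.val hg
    · rintro _ ⟨g, rfl⟩
      refine ⟨a, ?_⟩
      rw [hcard]
      have h1 : Nat.card G ∣ 2 ^ a * (2 ^ k - 1) :=
        ((Nat.dvd_factorial Nat.card_pos hG).trans (Nat.dvd_mul_right _ _)).trans ha
      obtain ⟨c, hc⟩ := h1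
      rw [← map_pow, hc, pow_mul, pow_card_eq_one', one_pow, map_one]
    · rintro _ ⟨g, rfl⟩ hg
      rw [hsc g hg, map_one]

end Pool.Agent.Y788.SLS
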