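import Pool.Agent.Y788.SLS.Main
import Pool.Agent.Y788.SLS.Emb
import Pool.Agent.Y786.FS.Modular

set_option autoImplicit false

/-!
# L-functions over the fixed fields of split subgroups of `SL_n(F)`: products, quotients and zeros
-/

namespace Pool.Agent.Y788.SLS

open Matrix Pool.Agent.H302R2 Pool.Agent.H302R3 Pool.Agent.H541R3.ART Pool.Agent.W446.AS
  Pool.Agent.Y786.FR Pool.Agent.Y786.FS Pool.Agent.Y788.SL Filter Topology

/-- the trivial character gives the L-function of the fixed field -/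
lemma induced_one {S Γ : Type} [Group S] [Finite S] [Group Γ] [Finite Γ] {s₀ : ℂ}
    {A : TwistData Γ s₀} (j : S →* Γ) (hj : Function.Injective j) (H : Subgroup S)
    {M : (H → ℂ) → ℂ → ℂ} (hM : InducedT (j.comp H.subtype) A M) :
    A.Lin (H.map j) 1 =ᶠ[𝓝[≠] s₀] M (fun _ => 1) := by
  classical
  choose! v hv using fun (ψ : Γ → ℂ) (hψ : ψ ∈ Irr Γ) =>
    exists_mult_hom hψ (j.comp H.subtype) (one_irr (G := H))
  refine (A.induce (H.map j) 1 v ?_).trans (hM _ one_irr v hv).symm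
  intro ψ hψ
  have h1 := hv ψ hψ
  have h3 : Nat.card (H.map j) = Nat.card H :=
    (Nat.card_congr (H.equivMapOfInjective j hj).toEquiv).symm
  rw [h3, ← h1]
  have h5 : ∀ h : H.map j, ψ (h : Γ) * ((((1 : H.map j →* ℂˣ) h)⁻¹ : ℂˣ) : ℂ) = ψ (h : Γ) := by
    intro h
    simp
  rw [finsum_congr h5]
  have h6 : ∀ g : H, ψ ((j.comp H.subtype) g) * (fun _ => (1 : ℂ)) g⁻¹ = ψ (j (g : S)) := by
    intro g
    simp
  rw [finsum_congr h6]
  exact (finsum_comp_equiv (H.equivMapOfInjective j hj).toEquiv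
    (f := fun y : H.map j => ψ (y : Γ))).symm

lemma twist_avg' {S Γ : Type} [Group S] [Finite S] [Group Γ] [Finite Γ] {s₀ : ℂ}
    (A : TwistData Γ s₀) (j : S →* Γ) (hj : Function.Injective j) (H : Subgroup S) :
    ∃ a : ℤ, meromorphicOrderAt (A.Lin (H.map j) 1) s₀ = a ∧
      ∑ᶠ h : H, theta A.ord (j (h : S)) = (a : ℂ) * (Nat.card H : ℂ) := by
  obtain ⟨a, h1, h2⟩ := order_twist A (H.map j)
  refine ⟨a, h1, ?_⟩
  have h3 : Nat.card (H.map j) = Nat.card H :=
    (Nat.card_congr (H.equivMapOfInjective j hj).toEquiv).symm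
  rw [h3] at h2
  rw [← h2]
  exact finsum_comp_equiv (H.equivMapOfInjective j hj).toEquiv
    (f := fun y : H.map j => theta A.ord (y : Γ))

/-- the average of a class function over a split subgroup without scalars -/
lemma avg_est {F : Type} [Field F] [Finite F] {n : ℕ} {θ : SpecialLinearGroup (Fin n) F → ℂ}
    {r δ C : ℝ} (h1 : θ 1 = (r : ℂ)) (hC0 : 0 ≤ C)
    (hC : ∀ g, (∃ a : ℕ, g ^ (2 ^ a * (Nat.card F - 1)) = 1) → ¬ IsSc g →
        ‖θ g - ((r - δ : ℝ) : ℂ)‖ ≤ C)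
    {H : Subgroup (SpecialLinearGroup (Fin n) F)} (hH : SplitSub H) {a : ℤ}
    (ha : ∑ᶠ h : H, θ (h : SpecialLinearGroup (Fin n) F) = (a : ℂ) * (Nat.card H : ℂ)) :
    |(a : ℝ) - (r - (1 - 1 / (Nat.card H : ℝ)) * δ)| ≤ C := by
  classical
  have hS : Finite (SpecialLinearGroup (Fin n) F) := Subtype.finite
  have : Fintype H := Fintype.ofFinite H
  have hc0 : (0 : ℝ) < Nat.card H := by exact_mod_cast Nat.card_pos
  have hcard : (Fintype.card H : ℝ) = Nat.card H := by rw [Nat.card_eq_fintype_card]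
  rw [finsum_eq_sum_of_fintype] at ha
  have hκ : ∀ g : H, ‖θ (g : SpecialLinearGroup (Fin n) F) -
      (((r - δ) + (if g = 1 then δ else 0) : ℝ) : ℂ)‖ ≤ C := by
    intro g
    by_cases hg : g = 1
    · rw [if_pos hg, hg, Subgroup.coe_one, h1, sub_add_cancel, sub_self, norm_zero]
      exact hC0
    · rw [if_neg hg, add_zero]
      exact hC _ (hH.1 g g.2) fun h => hg (Subtype.ext (hH.2 g g.2 h))
  have hsum : ((((a : ℝ) - (r - (1 - 1 / (Nat.card H : ℝ)) * δ)) * Nat.card H : ℝ) : ℂ) =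
      ∑ g : H, (θ (g : SpecialLinearGroup (Fin n) F) -
        (((r - δ) + (if g = 1 then δ else 0) : ℝ) : ℂ)) := by
    rw [Finset.sum_sub_distrib, ha, ← Complex.ofReal_sum, Finset.sum_add_distrib,
      Finset.sum_ite_eq' Finset.univ (1 : H) (fun _ => δ), if_pos (Finset.mem_univ _),
      Finset.sum_const, nsmul_eq_mul, Finset.card_univ, hcard]
    have h2 : ((a : ℝ) - (r - (1 - 1 / (Nat.card H : ℝ)) * δ)) * Nat.card H =
        a * Nat.card H - (Nat.card H * (r - δ) + δ) := by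
      field_simp
      ring
    rw [h2]
    push_cast
    ring
  have h3 : |((a : ℝ) - (r - (1 - 1 / (Nat.card H : ℝ)) * δ)) * Nat.card H| ≤
      Nat.card H * C := by
    rw [← Real.norm_eq_abs, ← Complex.norm_real, hsum]
    refine (norm_sum_le _ _).trans ?_
    refine (Finset.sum_le_sum (fun g _ => hκ g)).trans ?_
    rw [Finset.sum_const, nsmul_eq_mul, Finset.card_univ, hcard]
  rw [abs_mul, abs_of_pos hc0, mul_comm] at h3
  exact le_of_mul_le_mul_left h3 hc0

/-- **Main theorem on the fields of split subgroups of `SL_n(F)`.** -/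
theorem quot_main (F : Type) [Field F] [Finite F] [CharP F 2] (n : ℕ) (hn : 0 < n)
    (Γ : Type) [Group Γ] [Finite Γ] (j : SpecialLinearGroup (Fin n) F →* Γ)
    (hj : Function.Injective j) (s₀ : ℂ) (A : TwistData Γ s₀) :
    ∃ o : Subgroup (SpecialLinearGroup (Fin n) F) → ℤ,
      (∀ H, meromorphicOrderAt (A.Lin (H.map j) 1) s₀ = o H) ∧
      ∀ (N : ℕ) (ε : ℝ), 0 < ε → ε ≤ 1 → 84 * n * ((N : ℝ) + 1) ^ 2 ≤ ε * Nat.card F →
        (∀ H, SplitSub H → Nat.card H ≤ N → 0 ≤ o H ∧ (0 < o ⊥ → 0 < o H)) ∧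
        ∀ H H', SplitSub H → SplitSub H' → Nat.card H < Nat.card H' → Nat.card H' ≤ N →
          o H' ≤ o H ∧
          ∀ U U', SplitSub U → SplitSub U' → Nat.card U < Nat.card U' → Nat.card U' ≤ N →
            ((o H : ℝ) - o H') * (1 / (Nat.card U : ℝ) - 1 / (Nat.card U' : ℝ)) ≤
              (1 + ε) * (((o U : ℝ) - o U') * (1 / (Nat.card H : ℝ) - 1 / (Nat.card H' : ℝ))) := by
  classical
  have hS : Finite (SpecialLinearGroup (Fin n) F) := Subtype.finite
  have hθ : IsSolHeilbronn (fun σ : SpecialLinearGroup (Fin n) F => theta A.ord (j σ)) :=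
    A.isSol.comp j
  set θ : SpecialLinearGroup (Fin n) F → ℂ := fun σ => theta A.ord (j σ) with hθdef
  choose o ho1 ho2 using fun H => twist_avg' A j hj H
  refine ⟨o, ho1, ?_⟩
  intro N ε' he0 he1 hq
  set q : ℝ := (Nat.card F : ℝ) with hqdef
  have hq0 : 0 < q := by rw [hqdef]; exact_mod_cast Nat.card_pos
  have hn1 : (1 : ℝ) ≤ n := by exact_mod_cast hn
  obtain ⟨f, hf0, hfr, hf⟩ : ∃ f : ℝ, 0 ≤ (θ 1).re + (q - 1) * f ∧ f ≤ (θ 1).re ∧
      ∀ g, (∃ a : ℕ, g ^ (2 ^ a * (Nat.card F - 1)) = 1) → ¬ IsSc g →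
        ‖θ g - (f : ℂ)‖ ≤ 14 * n * (((θ 1).re - f) / Nat.card F) := sest' F n θ hθ
  obtain ⟨r', hr'⟩ := hθ.exists_deg
  set r : ℝ := (θ 1).re with hrdef
  have hr0 : 0 ≤ r := by
    rw [hrdef, hr', Complex.natCast_re]
    exact Nat.cast_nonneg _
  have hr1 : θ 1 = (r : ℂ) := by
    rw [hrdef, hr', Complex.natCast_re, Complex.ofReal_natCast]
  obtain ⟨δ, hδdef⟩ : ∃ δ, δ = r - f := ⟨_, rfl⟩
  have hfδ : f = r - δ := by rw [hδdef]; ring
  have hδ0 : 0 ≤ δ := by rw [hδdef]; linarith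
  rw [hfδ] at hf
  set η : ℝ := ε' / (12 * (N + 1) ^ 2) with hη
  have hN0 : (0 : ℝ) ≤ N := Nat.cast_nonneg N
  have hη0 : 0 < η := by positivity
  have hη3 : 12 * (N + 1) ^ 2 * η = ε' := by rw [hη]; field_simp
  have hN1 : (1 : ℝ) ≤ (N + 1) ^ 2 := by nlinarith
  have hη1 : η ≤ 1 / 12 := by nlinarith
  -- the size of `q`
  have hnq : 7 * n ≤ η * q := by
    have h1 : 12 * ((N : ℝ) + 1) ^ 2 * (7 * n) ≤ 12 * ((N : ℝ) + 1) ^ 2 * (η * q) := by
      calc 12 * ((N : ℝ) + 1) ^ 2 * (7 * n) = 84 * n * ((N : ℝ) + 1) ^ 2 := by ring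
        _ ≤ ε' * q := hq
        _ = _ := by rw [← hη3]; ring
    exact le_of_mul_le_mul_left h1 (by positivity)
  have h1q : 1 ≤ η * q := by linarith
  have hC : 14 * n * (((θ 1).re - (r - δ)) / Nat.card F) ≤ 2 * η * δ := by
    have h1 : 14 * n * (((θ 1).re - (r - δ)) / Nat.card F) = 14 * n * δ / q := by
      rw [← hrdef, ← hqdef]
      ring
    rw [h1, div_le_iff₀ hq0]
    nlinarith
  have hδr : δ - η * δ ≤ r := by
    have h1 : (q - 1) * δ ≤ q * r := by rw [hδdef]; nlinarith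
    have h2 : q * (δ - η * δ) ≤ q * r := by nlinarith
    exact le_of_mul_le_mul_left h2 hq0
  have hηδ : 0 ≤ η * δ := mul_nonneg hη0.le hδ0
  have hest : ∀ H, SplitSub H → Nat.card H ≤ N →
      |(o H : ℝ) - (r - (1 - 1 / (Nat.card H : ℝ)) * δ)| ≤ 2 * η * δ := by
    intro H hH _
    refine avg_est hr1 (by linarith) (fun g hg hs => ?_) hH (ho2 H)
    exact (hf g hg hs).trans hC
  -- difference of the inverses of the orders
  have hinv : ∀ a b : ℕ, 0 < a → a < b → b ≤ N →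
      1 / ((N : ℝ) + 1) ^ 2 ≤ 1 / (a : ℝ) - 1 / (b : ℝ) := by
    intro a b ha hab hbN
    have ha' : (0 : ℝ) < a := by exact_mod_cast ha
    have hb' : (0 : ℝ) < b := by exact_mod_cast ha.trans hab
    have hab' : (a : ℝ) + 1 ≤ b := by exact_mod_cast hab
    have hbN' : (b : ℝ) ≤ N := by exact_mod_cast hbN
    rw [div_sub_div _ _ ha'.ne' hb'.ne', div_le_div_iff₀ (by positivity) (by positivity)]
    have h1 : (a : ℝ) * b ≤ (N + 1) ^ 2 := by nlinarith
    nlinarith
  have hpair : ∀ H H', SplitSub H → SplitSub H' → Nat.card H < Nat.card H' → Nat.card H' ≤ N →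
      |((o H : ℝ) - o H') - (1 / (Nat.card H : ℝ) - 1 / (Nat.card H' : ℝ)) * δ| ≤
        ε' / 3 * ((1 / (Nat.card H : ℝ) - 1 / (Nat.card H' : ℝ)) * δ) := by
    intro H H' hH hH' hlt hle
    have h1 := abs_le.mp (hest H hH (hlt.le.trans hle))
    have h2 := abs_le.mp (hest H' hH' hle)
    have h3 := hinv _ _ Nat.card_pos hlt hle
    have h4 : 4 * η * δ ≤ ε' / 3 * ((1 / (Nat.card H : ℝ) - 1 / (Nat.card H' : ℝ)) * δ) := by
      have h5 : 4 * η = ε' / 3 * (1 / ((N : ℝ) + 1) ^ 2) := by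
        rw [hη]; field_simp; norm_num
      rw [h5]
      have h6 : 0 ≤ ε' / 3 * δ := by positivity
      nlinarith [mul_le_mul_of_nonneg_left h3 h6]
    rw [abs_le]
    constructor
    · linarith [h1.1, h2.2]
    · linarith [h1.2, h2.1]
  refine ⟨?_, ?_⟩
  · intro H hH hN
    have h1 := abs_le.mp (hest H hH hN)
    have h3 : 1 / ((N : ℝ) + 1) ≤ 1 / (Nat.card H : ℝ) := by
      apply one_div_le_one_div_of_le
      · exact_mod_cast Nat.card_pos
      · have : (Nat.card H : ℝ) ≤ N := by exact_mod_cast hN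
        linarith
    have h6 : 3 * η < 1 / ((N : ℝ) + 1) := by
      rw [lt_div_iff₀ (by positivity)]
      nlinarith
    have h8 : 1 / ((N : ℝ) + 1) * δ ≤ 1 / (Nat.card H : ℝ) * δ :=
      mul_le_mul_of_nonneg_right h3 hδ0
    refine ⟨?_, ?_⟩
    · have h7 : 0 ≤ (1 / ((N : ℝ) + 1) - 3 * η) * δ := mul_nonneg (by linarith) hδ0
      have h9 : (0 : ℝ) ≤ o H := by linarith [h1.1]
      exact_mod_cast h9
    intro hpos
    have hbot : SplitSub (⊥ : Subgroup (SpecialLinearGroup (Fin n) F)) := by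
      refine ⟨fun σ hσ => ⟨0, ?_⟩, fun σ hσ _ => Subgroup.mem_bot.mp hσ⟩
      rw [Subgroup.mem_bot.mp hσ, one_pow]
    have hN' : Nat.card (⊥ : Subgroup (SpecialLinearGroup (Fin n) F)) ≤ N := by
      rw [Subgroup.card_bot]
      exact le_trans Nat.card_pos hN
    have h2 := abs_le.mp (hest ⊥ hbot hN')
    rw [Subgroup.card_bot, Nat.cast_one, div_one, sub_self, zero_mul, sub_zero] at h2
    have hr : (0 : ℝ) < o ⊥ := by exact_mod_cast hpos
    have h4 : (0 : ℝ) < o H := by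
      rcases hδ0.eq_or_lt with h5 | h5
      · rw [← h5] at h1 h2
        simp only [mul_zero, sub_zero, neg_zero] at h1 h2
        linarith [h1.1, h2.2]
      · have h7 : 0 < (1 / ((N : ℝ) + 1) - 3 * η) * δ := mul_pos (by linarith) h5
        linarith [h1.1]
    exact_mod_cast h4
  · intro H H' hH hH' hlt hle
    have h1 := abs_le.mp (hpair H H' hH hH' hlt hle)
    have h3 := hinv _ _ Nat.card_pos hlt hle
    have hp : (0 : ℝ) < 1 / ((N : ℝ) + 1) ^ 2 := by positivity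
    have hD : 0 ≤ (1 / (Nat.card H : ℝ) - 1 / (Nat.card H' : ℝ)) * δ :=
      mul_nonneg (by linarith) hδ0
    refine ⟨?_, ?_⟩
    · have h4 : (o H' : ℝ) ≤ o H := by
        have h5 : ε' / 3 * ((1 / (Nat.card H : ℝ) - 1 / (Nat.card H' : ℝ)) * δ) ≤
            1 * ((1 / (Nat.card H : ℝ) - 1 / (Nat.card H' : ℝ)) * δ) :=
          mul_le_mul_of_nonneg_right (by linarith) hD
        linarith [h1.1]
      exact_mod_cast h4
    · intro U U' hU hU' hlt2 hle2
      have h2 := abs_le.mp (hpair U U' hU hU' hlt2 hle2)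
      have h4 := hinv _ _ Nat.card_pos hlt2 hle2
      set x : ℝ := 1 / (Nat.card H : ℝ) - 1 / (Nat.card H' : ℝ) with hx
      set y : ℝ := 1 / (Nat.card U : ℝ) - 1 / (Nat.card U' : ℝ) with hy
      have hx0 : 0 < x := by linarith
      have hy0 : 0 < y := by linarith
      have h5 : ((o H : ℝ) - o H') * y ≤ (1 + ε' / 3) * (x * δ) * y :=
        mul_le_mul_of_nonneg_right (by linarith [h1.2]) hy0.le
      have h6 : (1 - ε' / 3) * (y * δ) * x ≤ ((o U : ℝ) - o U') * x :=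
        mul_le_mul_of_nonneg_right (by linarith [h2.1]) hx0.le
      have h7 : 0 ≤ x * y * δ := by positivity
      have h8 : (1 + ε') * ((1 - ε' / 3) * (y * δ) * x) ≤ (1 + ε') * (((o U : ℝ) - o U') * x) :=
        mul_le_mul_of_nonneg_left h6 (by linarith)
      have h11 : (1 + ε' / 3) * (x * δ) * y ≤ (1 + ε') * ((1 - ε' / 3) * (y * δ) * x) := by
        have h12 : 1 + ε' / 3 ≤ (1 + ε') * (1 - ε' / 3) := by nlinarith
        calc (1 + ε' / 3) * (x * δ) * y = (1 + ε' / 3) * (x * y * δ) := by ring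
          _ ≤ ((1 + ε') * (1 - ε' / 3)) * (x * y * δ) := mul_le_mul_of_nonneg_right h12 h7
          _ = _ := by ring
      linarith

end Pool.Agent.Y788.SLS
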