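import Pool.Agent.Y788.SL.Stm
import Pool.Agent.Y786.FS.Main

set_option autoImplicit false

/-!
# Project SL, solvable version: class functions with nonnegative multiplicities on the solvable
subgroups of `SL_n(F)`, `F` a finite field of characteristic two
-/

namespace Pool.Agent.Y788.SLS

open Matrix Pool.Agent.H302R2 Pool.Agent.H302R3 Pool.Agent.H541R3.ART Pool.Agent.Y788.SL

/-- job A: structure of a Heilbronn function on `SL_2(F)` -/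
def SA : Prop := ∀ (F : Type) [Field F] [Finite F] [CharP F 2]
  (θ : SpecialLinearGroup (Fin 2) F → ℂ), IsSolHeilbronn θ →
  ∃ (N : ℝ) (f : ℝ) (I : Type) (_ : Fintype I) (μ : I → Fˣ →* ℂˣ) (b : I → ℝ),
    0 ≤ N ∧ (∀ i, 0 ≤ b i) ∧
    (∀ x : F, x ≠ 0 → θ (ux x) = (f : ℂ)) ∧
    θ 1 = ((f + Nat.card F * N : ℝ) : ℂ) ∧
    (∀ c : Fˣ, c ≠ 1 → θ (tc c) = ∑ i, (b i : ℂ) * ((μ i c : ℂˣ) : ℂ)) ∧
    (∑ i, b i = f + N) ∧
    ∑ i, (open Classical in if μ i = 1 then 0 else b i) ≤ 2 * N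

/-- job B: the comparison of split and unipotent elements of an `SL_2(F)` in a finite group, twisted
by an element `g` of its centralizer -/
def SB : Prop := ∀ (F : Type) [Field F] [Finite F] [CharP F 2] (S : Type) [Group S] [Finite S]
  (θ : S → ℂ), IsSolHeilbronn θ → ∀ (L : SpecialLinearGroup (Fin 2) F →* S) (g : S),
  (∀ h, g * L h = L h * g) → ∀ c : Fˣ, c ≠ 1 →
  ‖θ (g * L (tc c)) - θ (g * L (ux 1))‖ ≤
    5 * ((θ 1).re - (θ (L (ux 1))).re) / Nat.card F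

/-- job C: the abstract move. `D` is a subgroup with `g D g⁻¹ ≤ D`, `a` commutes with `D` and
modulo `D` with `g`. -/
def SC : Prop := ∀ (S : Type) [Group S] [Finite S] (θ : S → ℂ), IsSolHeilbronn θ →
  ∀ (D : Subgroup S) (g a : S) (f : ℂ),
    (∀ d ∈ D, ∀ d' ∈ D, d * d' = d' * d) →
    (∀ d ∈ D, g * d * g⁻¹ ∈ D) → (∀ d ∈ D, a * d = d * a) → g * a * g⁻¹ * a⁻¹ ∈ D →
    a * a = 1 →
    (∀ d ∈ D, θ (g * d) = θ g) → (∀ d ∈ D, θ (g * a * d) = θ (g * a)) →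
    (∀ d ∈ D, d ≠ 1 → θ d = f) → (∀ d ∈ D, θ (a * d) = f) →
    ‖θ g - θ (g * a)‖ ≤ ((θ 1).re - f.re) / Nat.card D

/-- job E: the move in `SL_n(F)`: `v` is an eigenvector of `g` and `g` is not scalar modulo `v` -/
def SE : Prop := ∀ (F : Type) [Field F] [Finite F] [CharP F 2] (n : ℕ)
  (θ : SpecialLinearGroup (Fin n) F → ℂ), IsSolHeilbronn θ →
  ∀ (f : ℝ), (∀ g, IsTv g → θ g = (f : ℂ)) →
  ∀ (g g' : SpecialLinearGroup (Fin n) F) (v φ : Fin n → F) (lam : F), v ≠ 0 →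
    (g : Matrix (Fin n) (Fin n) F) *ᵥ v = lam • v →
    (∃ w : Fin n → F, ∀ c : F, (g : Matrix (Fin n) (Fin n) F) *ᵥ w - lam • w ≠ c • v) →
    φ ⬝ᵥ v = 0 →
    (g' : Matrix (Fin n) (Fin n) F) = (g : Matrix (Fin n) (Fin n) F) + vecMulVec v φ →
    ‖θ g - θ g'‖ ≤ ((θ 1).re - f) / Nat.card F

/-- job G: diagonal elements -/
def SG : Prop := ∀ (F : Type) [Field F] [Finite F] [CharP F 2] (n : ℕ)
  (θ : SpecialLinearGroup (Fin n) F → ℂ), IsSolHeilbronn θ →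
  ∀ (f : ℝ), (∀ g, IsTv g → θ g = (f : ℂ)) →
  ∀ (g : SpecialLinearGroup (Fin n) F) (d : Fin n → F),
    (g : Matrix (Fin n) (Fin n) F) = Matrix.diagonal d → (∃ i j, d i ≠ d j) →
    ‖θ g - (f : ℂ)‖ ≤ 10 * n * (((θ 1).re - f) / Nat.card F)

/-- job T: scalar multiples of transvections -/
def ST : Prop := ∀ (F : Type) [Field F] [Finite F] [CharP F 2] (n : ℕ)
  (θ : SpecialLinearGroup (Fin n) F → ℂ), IsSolHeilbronn θ →
  ∀ (f : ℝ), (∀ g, IsTv g → θ g = (f : ℂ)) →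
  ∀ (g : SpecialLinearGroup (Fin n) F) (c : F) (v φ : Fin n → F), v ≠ 0 → φ ≠ 0 → φ ⬝ᵥ v = 0 →
    (g : Matrix (Fin n) (Fin n) F) = c • (1 + vecMulVec v φ) →
    ‖θ g - (f : ℂ)‖ ≤ (10 * n + 5) * (((θ 1).re - f) / Nat.card F)

/-- job U: upper triangular elements -/
def SU : Prop := ∀ (F : Type) [Field F] [Finite F] [CharP F 2] (n : ℕ)
  (θ : SpecialLinearGroup (Fin n) F → ℂ), IsSolHeilbronn θ →
  ∀ (f : ℝ), (∀ g, IsTv g → θ g = (f : ℂ)) →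
  ∀ (g : SpecialLinearGroup (Fin n) F),
    (∀ i j : Fin n, j < i → (g : Matrix (Fin n) (Fin n) F) i j = 0) → ¬ IsSc g →
    ‖θ g - (f : ℂ)‖ ≤ 14 * n * (((θ 1).re - f) / Nat.card F)

/-- job N: multiplicities in the restriction to a subgroup of `SL_n(F)`, `F` large -/
def SN : Prop := ∀ (F : Type) [Field F] [Finite F] [CharP F 2] (n : ℕ),
  (∀ θ : SpecialLinearGroup (Fin n) F → ℂ, IsSolHeilbronn θ →
    ∃ f : ℝ, 0 ≤ (θ 1).re + (Nat.card F - 1) * f ∧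
      ∀ g, (∃ a : ℕ, g ^ (2 ^ a * (Nat.card F - 1)) = 1) → ¬ IsSc g →
        ‖θ g - (f : ℂ)‖ ≤ 14 * n * (((θ 1).re - f) / Nat.card F)) →
  ∀ (θ : SpecialLinearGroup (Fin n) F → ℂ), IsSolHeilbronn θ →
  ∀ (G : Type) [Group G] [Fintype G] (ι : G →* SpecialLinearGroup (Fin n) F),
    Function.Injective ι → (∀ g : G, ∃ a : ℕ, g ^ (2 ^ a * (Nat.card F - 1)) = 1) →
    42 * n * Fintype.card G ≤ Nat.card F →
    ∀ χ ∈ Irr G, ∀ m : ℤ, ∑ g : G, θ (ι g) * χ g⁻¹ = (m : ℂ) * Fintype.card G → 0 ≤ m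

/-- job P: multiplicities in the restriction to a split subgroup of `SL_2(F)` -/
def SP : Prop := ∀ (F : Type) [Field F] [Finite F] [CharP F 2]
  (θ : SpecialLinearGroup (Fin 2) F → ℂ), IsSolHeilbronn θ →
  ∀ (G : Type) [Group G] [Fintype G] (ι : G →* SpecialLinearGroup (Fin 2) F),
    Function.Injective ι → (∀ g : G, ∃ a : ℕ, g ^ (2 ^ a * (Nat.card F - 1)) = 1) →
    ∀ χ ∈ Irr G, ∀ m : ℤ, ∑ g : G, θ (ι g) * χ g⁻¹ = (m : ℂ) * Fintype.card G → 0 ≤ m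

end Pool.Agent.Y788.SLS
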